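import Mathlib

/-!
# Topological conjugacy: markers in Euclidean space
-/

set_option autoImplicit false

open Set Filter Topology Metric
open scoped ContDiff

namespace Pool.Agent.K3h39.TC

/-- The model space. -/
abbrev E (m : ℕ) : Type := EuclideanSpace ℝ (Fin (m + 2))

/-- first basis vector -/
noncomputable def e0 (m : ℕ) : E m := EuclideanSpace.single 0 1
/-- second basis vector -/
noncomputable def e1 (m : ℕ) : E m := EuclideanSpace.single 1 1

/-- height of the marker `k` -/
noncomputable def s (k : ℕ) : ℝ := (1/2) ^ k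
/-- radius of the marker `k` -/
noncomputable def rho (k : ℕ) : ℝ := s k / 8

/-- clamp to `[0,1]` -/
noncomputable def cl (t : ℝ) : ℝ := max 0 (min 1 t)

/-- horizontal position of the marker `k` -/
noncomputable def a (k : ℕ) (x : ℕ → ℝ) : ℝ := if k % 2 = 0 then cl (x (k / 2)) else 0

/-- centre of the marker `k` -/
noncomputable def c (m k : ℕ) (x : ℕ → ℝ) : E m := a k x • e0 m + s k • e1 m

/-- projection along `e0` -/
noncomputable def P (m : ℕ) (u : E m) : E m := u - u 0 • e0 m

theorem s_pos (k : ℕ) : 0 < s k := by unfold s; positivity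
theorem s_le_one (k : ℕ) : s k ≤ 1 := pow_le_one₀ (by norm_num) (by norm_num)
theorem rho_pos (k : ℕ) : 0 < rho k := by have := s_pos k; unfold rho; positivity
theorem rho_le (k : ℕ) : rho k ≤ 1/8 := by have := s_le_one k; unfold rho; linarith

theorem s_half {k l : ℕ} (h : k < l) : s l ≤ s k / 2 := by
  have h1 : s l ≤ s (k+1) := by
    unfold s
    exact pow_le_pow_of_le_one (by norm_num) (by norm_num) h
  have h2 : s (k+1) = s k / 2 := by unfold s; rw [pow_succ]; ring
  linarith

theorem cl_nonneg (t : ℝ) : 0 ≤ cl t := le_max_left _ _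
theorem cl_le_one (t : ℝ) : cl t ≤ 1 := max_le zero_le_one (min_le_left _ _)
theorem cl_continuous : Continuous cl := by unfold cl; fun_prop
theorem cl_lip (t t' : ℝ) : |cl t - cl t'| ≤ |t - t'| := by
  unfold cl
  rw [abs_le]
  have h := abs_le.1 (le_refl |t - t'|)
  have h0 := abs_nonneg (t - t')
  constructor
  · have : max 0 (min 1 t') ≤ max 0 (min 1 t) + |t - t'| := by
      refine max_le ?_ ?_
      · have := le_max_left 0 (min 1 t); linarith
      · have h1 : min 1 t' ≤ min 1 t + |t - t'| := by
          rcases le_total 1 t with h2 | h2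
          · rw [min_eq_left h2]; have := min_le_left 1 t'; linarith
          · rw [min_eq_right h2]; have := min_le_right 1 t'; linarith
        have := le_max_right 0 (min 1 t); linarith
    linarith
  · have : max 0 (min 1 t) ≤ max 0 (min 1 t') + |t - t'| := by
      refine max_le ?_ ?_
      · have := le_max_left 0 (min 1 t'); linarith
      · have h1 : min 1 t ≤ min 1 t' + |t - t'| := by
          rcases le_total 1 t' with h2 | h2
          · rw [min_eq_left h2]; have := min_le_left 1 t; linarith
          · rw [min_eq_right h2]; have := min_le_right 1 t; linarith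
        have := le_max_right 0 (min 1 t'); linarith
    linarith

theorem cl_eq_zero {t : ℝ} (h : t ≤ 0) : cl t = 0 := by
  unfold cl
  rw [max_eq_left]
  exact (min_le_right _ _).trans h

theorem cl_eq_one {t : ℝ} (h : 1 ≤ t) : cl t = 1 := by
  unfold cl
  rw [min_eq_left h, max_eq_right zero_le_one]

theorem a_nonneg (k : ℕ) (x : ℕ → ℝ) : 0 ≤ a k x := by
  unfold a; split_ifs
  · exact cl_nonneg _
  · exact le_rfl

theorem a_le_one (k : ℕ) (x : ℕ → ℝ) : a k x ≤ 1 := by
  unfold a; split_ifs
  · exact cl_le_one _
  · exact zero_le_one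

theorem a_continuous (k : ℕ) : Continuous (a k) := by
  unfold a; split_ifs
  · exact cl_continuous.comp (continuous_apply _)
  · exact continuous_const

theorem c_continuous (m k : ℕ) : Continuous (c m k) := by
  unfold c
  exact ((a_continuous k).smul continuous_const).add continuous_const

theorem e0_zero (m : ℕ) : e0 m 0 = 1 := by simp [e0]
theorem e1_zero (m : ℕ) : e1 m 0 = 0 := by
  unfold e1
  rw [EuclideanSpace.single_apply, if_neg]
  intro h
  have := congrArg Fin.val h
  simp at this

theorem norm_e0 (m : ℕ) : ‖e0 m‖ = 1 := by simp [e0]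
theorem norm_e1 (m : ℕ) : ‖e1 m‖ = 1 := by simp [e1]

theorem P_add (m : ℕ) (u v : E m) : P m (u + v) = P m u + P m v := by
  unfold P; rw [PiLp.add_apply]; module

theorem P_sub (m : ℕ) (u v : E m) : P m (u - v) = P m u - P m v := by
  unfold P; rw [PiLp.sub_apply]; module

theorem P_smul (m : ℕ) (t : ℝ) (u : E m) : P m (t • u) = t • P m u := by
  unfold P; rw [PiLp.smul_apply, smul_eq_mul, smul_sub, smul_smul]

theorem P_e0 (m : ℕ) : P m (e0 m) = 0 := by
  unfold P; rw [e0_zero, one_smul, sub_self]

theorem P_e1 (m : ℕ) : P m (e1 m) = e1 m := by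
  unfold P; rw [e1_zero, zero_smul, sub_zero]

theorem P_P (m : ℕ) (u : E m) : P m (P m u) = P m u := by
  conv_lhs => unfold P
  have : (P m u) 0 = 0 := by
    unfold P
    rw [PiLp.sub_apply, PiLp.smul_apply, e0_zero, smul_eq_mul, mul_one, sub_self]
  unfold P at this ⊢
  rw [this, zero_smul, sub_zero]

theorem P_c (m k : ℕ) (x : ℕ → ℝ) : P m (c m k x) = s k • e1 m := by
  unfold c
  rw [P_add, P_smul, P_smul, P_e0, P_e1, smul_zero, zero_add]

theorem decomp (m : ℕ) (u : E m) : u = P m u + u 0 • e0 m := by
  unfold P; rw [sub_add_cancel]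

theorem P_continuous (m : ℕ) : Continuous (P m) := by
  unfold P; fun_prop

theorem abs_le_norm (m : ℕ) (u : E m) : |u 0| ≤ ‖u‖ := by
  have := PiLp.norm_apply_le u 0
  simpa using this

theorem norm_P_le (m : ℕ) (u : E m) : ‖P m u‖ ≤ ‖u‖ := by
  rw [EuclideanSpace.norm_eq, EuclideanSpace.norm_eq]
  refine Real.sqrt_le_sqrt (Finset.sum_le_sum fun i _ => ?_)
  by_cases h : i = 0
  · subst h
    have : (P m u) 0 = 0 := by
      unfold P
      rw [PiLp.sub_apply, PiLp.smul_apply, e0_zero, smul_eq_mul, mul_one, sub_self]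
    rw [this]; simp
    positivity
  · have : (P m u) i = u i := by
      unfold P
      rw [PiLp.sub_apply, PiLp.smul_apply]
      have : e0 m i = 0 := by
        unfold e0
        rw [EuclideanSpace.single_apply, if_neg h]
      rw [this]; simp
    rw [this]

theorem norm_le_of (m : ℕ) (u : E m) : ‖u‖ ≤ ‖P m u‖ + |u 0| := by
  conv_lhs => rw [decomp m u]
  refine (norm_add_le _ _).trans ?_
  rw [norm_smul, norm_e0, mul_one, Real.norm_eq_abs]

theorem c_zero (m k : ℕ) (x : ℕ → ℝ) : c m k x 0 = a k x := by
  unfold c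
  rw [PiLp.add_apply, PiLp.smul_apply, PiLp.smul_apply, e0_zero, e1_zero]
  simp

theorem norm_c_le (m k : ℕ) (x : ℕ → ℝ) : ‖c m k x‖ ≤ 2 := by
  refine (norm_le_of m _).trans ?_
  rw [P_c, c_zero, norm_smul, norm_e1, mul_one, Real.norm_eq_abs, abs_of_pos (s_pos k),
    abs_of_nonneg (a_nonneg k x)]
  linarith [s_le_one k, a_le_one k x]

theorem c_sub (m k : ℕ) (x y : ℕ → ℝ) : c m k y - c m k x = (a k y - a k x) • e0 m := by
  unfold c; module

/-- the layers are disjoint -/
theorem layer_disj {m k l : ℕ} {w : E m} (h1 : ‖w - s k • e1 m‖ < 2 * rho k)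
    (h2 : ‖w - s l • e1 m‖ < 2 * rho l) : k = l := by
  have h3 : |s k - s l| < 2 * rho k + 2 * rho l := by
    have h4 : (s k - s l) • e1 m = (w - s l • e1 m) - (w - s k • e1 m) := by module
    have h5 : |s k - s l| = ‖(s k - s l) • e1 m‖ := by
      rw [norm_smul, norm_e1, mul_one, Real.norm_eq_abs]
    rw [h5, h4]
    refine (norm_sub_le _ _).trans_lt ?_
    linarith
  unfold rho at h3
  rcases lt_trichotomy k l with h | h | h
  · exfalso
    have h6 := s_half h
    have h7 := s_pos k
    have h8 := s_pos l
    have := le_abs_self (s k - s l)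
    linarith
  · exact h
  · exfalso
    have h6 := s_half h
    have h7 := s_pos k
    have h8 := s_pos l
    have := neg_abs_le (s k - s l)
    linarith

theorem ball_layer {m k : ℕ} {x : ℕ → ℝ} {u : E m} {r : ℝ} (h : ‖u - c m k x‖ < r) :
    ‖P m u - s k • e1 m‖ < r := by
  rw [← P_c m k x, ← P_sub]
  exact (norm_P_le m _).trans_lt h

theorem ball_disj {m k l : ℕ} {x y : ℕ → ℝ} {u v : E m} (huv : P m u = P m v)
    (h1 : ‖u - c m k x‖ < rho k) (h2 : ‖v - c m l y‖ < rho l) : k = l := by
  have h3 := ball_layer h1
  have h4 := ball_layer h2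
  rw [← huv] at h4
  exact layer_disj (by linarith [rho_pos k]) (by linarith [rho_pos l])

/-! ### marker sets -/

/-- `k` points -/
noncomputable def Hol (m k : ℕ) : Set (E m) := (fun j : ℕ => (j : ℝ) • e0 m) '' (Finset.range k)

/-- marker set: a ball with `k` punctures -/
noncomputable def W (m k : ℕ) : Set (E m) :=
  OpenPartialHomeomorph.univBall (0 : E m) (rho k) '' (Hol m k)ᶜ

theorem smul_e0_inj (m : ℕ) : Function.Injective (fun j : ℕ => (j : ℝ) • e0 m) := by
  intro i j h
  have h1 := congrArg (fun v : E m => v 0) h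
  simp only [PiLp.smul_apply, e0_zero, smul_eq_mul, mul_one] at h1
  exact_mod_cast h1

theorem Hol_finite (m k : ℕ) : (Hol m k).Finite := (Finset.finite_toSet _).image _

theorem Hol_ncard (m k : ℕ) : (Hol m k).ncard = k := by
  unfold Hol
  rw [Set.ncard_image_of_injective _ (smul_e0_inj m), Set.ncard_coe_finset, Finset.card_range]

theorem univBall_inj (m : ℕ) (r : ℝ) :
    Function.Injective (OpenPartialHomeomorph.univBall (0 : E m) r) := by
  have h := (OpenPartialHomeomorph.univBall (0 : E m) r).injOn
  rw [OpenPartialHomeomorph.univBall_source] at h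
  exact injOn_univ.1 h

theorem univBall_range (m : ℕ) {r : ℝ} (hr : 0 < r) :
    range (OpenPartialHomeomorph.univBall (0 : E m) r) = ball 0 r := by
  have h := (OpenPartialHomeomorph.univBall (0 : E m) r).image_source_eq_target
  rw [OpenPartialHomeomorph.univBall_source, OpenPartialHomeomorph.univBall_target _ hr,
    image_univ] at h
  exact h

theorem W_open (m k : ℕ) : IsOpen (W m k) := by
  refine OpenPartialHomeomorph.isOpen_image_of_subset_source _
    (Hol_finite m k).isClosed.isOpen_compl ?_
  rw [OpenPartialHomeomorph.univBall_source]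
  exact subset_univ _

theorem W_subset (m k : ℕ) : W m k ⊆ ball 0 (rho k) := by
  rw [← univBall_range m (rho_pos k)]
  exact image_subset_range _ _

theorem W_eq (m k : ℕ) : W m k = ball 0 (rho k) \
    (OpenPartialHomeomorph.univBall (0 : E m) (rho k) '' (Hol m k)) := by
  unfold W
  rw [compl_eq_univ_diff, image_sdiff (univBall_inj m _), image_univ,
    univBall_range m (rho_pos k)]

theorem rank_E (m : ℕ) : 1 < Module.rank ℝ (E m) := by
  rw [← Module.finrank_eq_rank, finrank_euclideanSpace_fin]
  exact_mod_cast (by omega : 1 < m + 2)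

theorem W_conn (m k : ℕ) : IsConnected (W m k) := by
  have h := ((Hol_finite m k).countable.isPathConnected_compl_of_one_lt_rank (rank_E m)).isConnected
  exact h.image _ (OpenPartialHomeomorph.continuous_univBall _ _).continuousOn

theorem closure_W (m k : ℕ) : closure (W m k) = closedBall 0 (rho k) := by
  have hfin : (OpenPartialHomeomorph.univBall (0 : E m) (rho k) '' (Hol m k)).Finite :=
    (Hol_finite m k).image _
  rw [W_eq, ← closure_ball (0 : E m) (rho_pos k).ne']
  refine Subset.antisymm (closure_mono sdiff_subset) ?_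
  have hd : Dense ((OpenPartialHomeomorph.univBall (0 : E m) (rho k) '' (Hol m k))ᶜ) :=
    hfin.countable.dense_compl ℝ
  have h := hd.open_subset_closure_inter (isOpen_ball (x := (0 : E m)) (ε := rho k))
  rw [← sdiff_eq] at h
  exact closure_minimal h isClosed_closure

/-- the topological invariant -/
noncomputable def N {Z : Type*} [TopologicalSpace Z] (T : Set Z) : ℕ :=
  (interior (closure T) \ T).ncard

theorem N_homeo {Z : Type*} [TopologicalSpace Z] (h : Z ≃ₜ Z) (T : Set Z) : N (h '' T) = N T := by
  unfold N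
  rw [← h.image_closure, ← h.image_interior, ← image_sdiff h.injective,
    Set.ncard_image_of_injective _ h.injective]

end Pool.Agent.K3h39.TC
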