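import Pool.Agent.K3h39.TC.G

/-!
# Topological conjugacy: the conjugating map
-/

set_option autoImplicit false

open Set Filter Topology Metric
open scoped ContDiff NNReal

namespace Pool.Agent.K3h39.TC

/-- horizontal cutoff -/
noncomputable def kap (t : ℝ) : ℝ := cl ((3 - |t|) / 2)

/-- vertical cutoff -/
noncomputable def lam (m k : ℕ) (w : E m) : ℝ := cl (2 - ‖w - s k • e1 m‖ / rho k)

theorem kap_continuous : Continuous kap := by
  unfold kap
  exact cl_continuous.comp (by fun_prop)

theorem kap_one {t : ℝ} (h : |t| ≤ 1) : kap t = 1 := cl_eq_one (by linarith)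
theorem kap_zero {t : ℝ} (h : 3 ≤ |t|) : kap t = 0 := cl_eq_zero (by linarith)
theorem kap_lip (t t' : ℝ) : |kap t - kap t'| ≤ |t - t'| / 2 := by
  refine (cl_lip _ _).trans ?_
  have h : (3 - |t|) / 2 - (3 - |t'|) / 2 = (|t'| - |t|) / 2 := by ring
  rw [h, abs_div, abs_two]
  have := abs_abs_sub_abs_le t' t
  rw [abs_sub_comm t t']
  linarith

theorem lam_continuous (m k : ℕ) : Continuous (lam m k) := by
  unfold lam
  exact cl_continuous.comp (by fun_prop)

theorem lam_one {m k : ℕ} {w : E m} (h : ‖w - s k • e1 m‖ < rho k) : lam m k w = 1 := by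
  refine cl_eq_one ?_
  have : ‖w - s k • e1 m‖ / rho k ≤ 1 := (div_le_one (rho_pos k)).2 h.le
  linarith

theorem lam_zero {m k : ℕ} {w : E m} (h : ¬ ‖w - s k • e1 m‖ < 2 * rho k) : lam m k w = 0 := by
  refine cl_eq_zero ?_
  have : 2 ≤ ‖w - s k • e1 m‖ / rho k := by
    rw [le_div_iff₀ (rho_pos k)]
    exact not_lt.1 h
  linarith

/-- term of the horizontal displacement -/
noncomputable def dt (m k : ℕ) (x y : ℕ → ℝ) (u : E m) : ℝ :=
  (a k y - a k x) * (kap (u 0 - a k x) * lam m k (P m u))

/-- horizontal displacement -/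
noncomputable def D (m : ℕ) (x y : ℕ → ℝ) (u : E m) : ℝ := ∑' k, dt m k x y u

/-- the conjugating map -/
noncomputable def Hm (m : ℕ) (x y : ℕ → ℝ) (u : E m) : E m := u + D m x y u • e0 m

theorem coord_continuous (m : ℕ) : Continuous (fun u : E m => u 0) := by fun_prop

theorem dt_continuous (m k : ℕ) (x y : ℕ → ℝ) : Continuous (dt m k x y) := by
  unfold dt
  exact continuous_const.mul ((kap_continuous.comp ((coord_continuous m).sub
    continuous_const)).mul ((lam_continuous m k).comp (P_continuous m)))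

theorem dt_le (m k : ℕ) (x y : ℕ → ℝ) (u : E m) : ‖dt m k x y u‖ ≤ |a k y - a k x| := by
  unfold dt
  rw [norm_mul, Real.norm_eq_abs, Real.norm_eq_abs]
  refine mul_le_of_le_one_right (abs_nonneg _) ?_
  unfold kap lam
  rw [abs_of_nonneg (mul_nonneg (cl_nonneg _) (cl_nonneg _))]
  exact mul_le_one₀ (cl_le_one _) (cl_nonneg _) (cl_le_one _)

theorem summable_a {x y : ℕ → ℝ} (h : Summable (fun n => |x n - y n|)) :
    Summable (fun k => |a k y - a k x|) := by
  have he : Summable (fun n => |a (2*n) y - a (2*n) x|) := by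
    refine Summable.of_nonneg_of_le (fun n => abs_nonneg _) (fun n => ?_) h
    have h1 : (2 * n) % 2 = 0 := by omega
    have h2 : (2 * n) / 2 = n := by omega
    unfold a
    rw [if_pos h1, if_pos h1, h2, abs_sub_comm (x n)]
    exact cl_lip _ _
  have ho : Summable (fun n => |a (2*n+1) y - a (2*n+1) x|) := by
    have h3 : (fun n => |a (2*n+1) y - a (2*n+1) x|) = fun _ => (0 : ℝ) := by
      funext n
      have h1 : ¬ (2 * n + 1) % 2 = 0 := by omega
      unfold a
      rw [if_neg h1, if_neg h1, sub_self, abs_zero]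
    rw [h3]
    exact summable_zero
  exact (HasSum.even_add_odd (f := fun k => |a k y - a k x|) he.hasSum ho.hasSum).summable

theorem D_continuous (m : ℕ) {x y : ℕ → ℝ} (h : Summable (fun n => |x n - y n|)) :
    Continuous (D m x y) :=
  continuous_tsum (fun k => dt_continuous m k x y) (summable_a h) (fun k u => dt_le m k x y u)

theorem H_continuous (m : ℕ) {x y : ℕ → ℝ} (h : Summable (fun n => |x n - y n|)) :
    Continuous (Hm m x y) :=
  continuous_id.add ((D_continuous m h).smul continuous_const)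

/-- in every fibre only one layer is active -/
theorem D_fibre (m : ℕ) (x y : ℕ → ℝ) (w : E m) : ∃ k, ∀ u, P m u = w →
    D m x y u = dt m k x y u := by
  by_cases h : ∃ k, ‖w - s k • e1 m‖ < 2 * rho k
  · obtain ⟨k, hk⟩ := h
    refine ⟨k, fun u hu => ?_⟩
    unfold D
    refine tsum_eq_single k fun l hl => ?_
    unfold dt
    rw [hu, lam_zero, mul_zero, mul_zero]
    intro h2
    exact hl (layer_disj h2 hk)
  · push Not at h
    refine ⟨0, fun u hu => ?_⟩
    have h0 : ∀ k, dt m k x y u = 0 := by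
      intro k
      unfold dt
      rw [hu, lam_zero (not_lt.2 (h k)), mul_zero, mul_zero]
    unfold D
    rw [tsum_congr h0, tsum_zero, h0]

theorem D_in {m k : ℕ} {x y : ℕ → ℝ} {u : E m} (h : ‖u - c m k x‖ < rho k) :
    D m x y u = a k y - a k x := by
  have h1 := ball_layer h
  unfold D
  rw [tsum_eq_single k]
  · unfold dt
    rw [lam_one h1, kap_one, mul_one, mul_one]
    have h2 := abs_le_norm m (u - c m k x)
    rw [PiLp.sub_apply, c_zero] at h2
    linarith [rho_le k]
  · intro l hl
    unfold dt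
    rw [lam_zero, mul_zero, mul_zero]
    intro h2
    exact hl (layer_disj h2 (by linarith [rho_pos k]))

theorem H_in {m k : ℕ} {x y : ℕ → ℝ} {u : E m} (h : ‖u - c m k x‖ < rho k) :
    Hm m x y u = u + (c m k y - c m k x) := by
  unfold Hm
  rw [D_in h, c_sub]

theorem abs_D_le (m : ℕ) (x y : ℕ → ℝ) (u : E m) : |D m x y u| ≤ 1 := by
  obtain ⟨k, hk⟩ := D_fibre m x y (P m u)
  rw [hk u rfl]
  have := dt_le m k x y u
  rw [Real.norm_eq_abs] at this
  refine this.trans ?_
  rw [abs_le]
  have h1 := a_nonneg k x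
  have h2 := a_nonneg k y
  have h3 := a_le_one k x
  have h4 := a_le_one k y
  constructor <;> linarith

theorem D_lip {m : ℕ} (x y : ℕ → ℝ) {u v : E m} (h : P m u = P m v) :
    |D m x y u - D m x y v| ≤ |u 0 - v 0| / 2 := by
  obtain ⟨k, hk⟩ := D_fibre m x y (P m u)
  rw [hk u rfl, hk v h.symm]
  unfold dt
  rw [h, ← mul_sub, ← sub_mul, abs_mul, abs_mul]
  have h1 : |a k y - a k x| ≤ 1 := by
    rw [abs_le]
    have h1 := a_nonneg k x
    have h2 := a_nonneg k y
    have h3 := a_le_one k x
    have h4 := a_le_one k y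
    constructor <;> linarith
  have h2 : |lam m k (P m v)| ≤ 1 := by
    unfold lam
    rw [abs_of_nonneg (cl_nonneg _)]
    exact cl_le_one _
  have h3 := kap_lip (u 0 - a k x) (v 0 - a k x)
  rw [sub_sub_sub_cancel_right] at h3
  calc |a k y - a k x| * (|kap (u 0 - a k x) - kap (v 0 - a k x)| * |lam m k (P m v)|)
      ≤ 1 * (|u 0 - v 0| / 2 * 1) := by gcongr
    _ = |u 0 - v 0| / 2 := by ring

theorem P_H (m : ℕ) (x y : ℕ → ℝ) (u : E m) : P m (Hm m x y u) = P m u := by
  unfold Hm; rw [P_add, P_smul, P_e0, smul_zero, add_zero]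

theorem H_zero (m : ℕ) (x y : ℕ → ℝ) (u : E m) : (Hm m x y u) 0 = u 0 + D m x y u := by
  unfold Hm
  rw [PiLp.add_apply, PiLp.smul_apply, e0_zero, smul_eq_mul, mul_one]

theorem H_inj (m : ℕ) (x y : ℕ → ℝ) : Function.Injective (Hm m x y) := by
  intro u v h
  have h1 : P m u = P m v := by rw [← P_H m x y u, ← P_H m x y v, h]
  have h2 : u 0 + D m x y u = v 0 + D m x y v := by rw [← H_zero, ← H_zero, h]
  have h3 := D_lip x y h1
  have h4 : D m x y u - D m x y v = -(u 0 - v 0) := by linarith
  rw [h4, abs_neg] at h3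
  have h5 : |u 0 - v 0| ≤ 0 := by
    have := abs_nonneg (u 0 - v 0)
    linarith
  have h6 : u 0 = v 0 := by
    have := abs_nonpos_iff.1 h5
    linarith
  rw [decomp m u, decomp m v, h1, h6]

theorem P_line (m : ℕ) (w : E m) (t : ℝ) : P m (P m w + t • e0 m) = P m w := by
  rw [P_add, P_P, P_smul, P_e0, smul_zero, add_zero]

theorem line_zero (m : ℕ) (w : E m) (t : ℝ) : (P m w + t • e0 m) 0 = t := by
  rw [PiLp.add_apply, PiLp.smul_apply, e0_zero, smul_eq_mul, mul_one]
  unfold P
  rw [PiLp.sub_apply, PiLp.smul_apply, e0_zero, smul_eq_mul, mul_one, sub_self, zero_add]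

theorem H_surj (m : ℕ) {x y : ℕ → ℝ} (h : Summable (fun n => |x n - y n|)) :
    Function.Surjective (Hm m x y) := by
  intro w
  let φ : ℝ → ℝ := fun t => t + D m x y (P m w + t • e0 m)
  have hφ : Continuous φ := by
    refine continuous_id.add ((D_continuous m h).comp ?_)
    fun_prop
  have hb : ∀ t, t - 1 ≤ φ t ∧ φ t ≤ t + 1 := by
    intro t
    have := abs_le.1 (abs_D_le m x y (P m w + t • e0 m))
    exact ⟨by simp only [φ]; linarith, by simp only [φ]; linarith⟩
  have htop : Tendsto φ atTop atTop :=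
    tendsto_atTop_mono (fun t => (hb t).1) (tendsto_atTop_add_const_right _ _ tendsto_id)
  have hbot : Tendsto φ atBot atBot :=
    tendsto_atBot_mono (fun t => (hb t).2) (tendsto_atBot_add_const_right _ _ tendsto_id)
  obtain ⟨t, ht⟩ := hφ.surjective htop hbot (w 0)
  refine ⟨P m w + t • e0 m, ?_⟩
  have hH : Hm m x y (P m w + t • e0 m) = P m w + φ t • e0 m := by
    rw [decomp m (Hm m x y _), P_H, P_line, H_zero, line_zero]
  rw [hH, ht]
  exact (decomp m w).symm

theorem D_far {m : ℕ} {x y : ℕ → ℝ} {u : E m} (h : 6 < ‖u‖) : D m x y u = 0 := by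
  unfold D
  rw [tsum_congr (g := fun _ => (0 : ℝ)), tsum_zero]
  intro k
  unfold dt
  by_cases h1 : ‖P m u - s k • e1 m‖ < 2 * rho k
  · rw [kap_zero, zero_mul, mul_zero]
    by_contra h2
    push Not at h2
    have h3 := norm_le_of m u
    have h4 : ‖P m u‖ ≤ ‖P m u - s k • e1 m‖ + ‖s k • e1 m‖ := by
      simpa using norm_add_le (P m u - s k • e1 m) (s k • e1 m)
    rw [norm_smul, norm_e1, mul_one, Real.norm_eq_abs, abs_of_pos (s_pos k)] at h4
    have h5 : |u 0| ≤ |u 0 - a k x| + |a k x| := by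
      simpa using abs_add_le (u 0 - a k x) (a k x)
    rw [abs_of_nonneg (a_nonneg k x)] at h5
    linarith [rho_le k, s_le_one k, a_le_one k x]
  · rw [lam_zero h1, mul_zero, mul_zero]

theorem H_far {m : ℕ} {x y : ℕ → ℝ} {u : E m} (h : 6 < ‖u‖) : Hm m x y u = u := by
  unfold Hm; rw [D_far h, zero_smul, add_zero]

/-- the displacement is transported -/
theorem Psi_H (m : ℕ) {x y : ℕ → ℝ} (u : E m) : Psi m y (Hm m x y u) = Psi m x u := by
  by_cases h1 : ∃ k, ‖u - c m k x‖ < rho k
  · obtain ⟨k, hk⟩ := h1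
    have h2 : Hm m x y u - c m k y = u - c m k x := by rw [H_in hk]; abel
    have h3 : ‖Hm m x y u - c m k y‖ < rho k := by rw [h2]; exact hk
    rw [Psi_in h3, Psi_in hk]
    unfold term
    rw [h2]
  · push Not at h1
    rw [Psi_out fun k => not_lt.2 (h1 k)]
    refine Psi_out fun k hk => ?_
    -- a preimage in the marker ball
    set u' := Hm m x y u + (c m k x - c m k y) with hu'
    have h2 : ‖u' - c m k x‖ < rho k := by
      have : u' - c m k x = Hm m x y u - c m k y := by rw [hu']; abel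
      rw [this]; exact hk
    have h3 : Hm m x y u' = Hm m x y u := by rw [H_in h2, hu']; abel
    have h4 := H_inj m x y h3
    rw [h4] at h2
    exact absurd h2 (not_lt.2 (h1 k))

theorem g_marker {m k : ℕ} {x : ℕ → ℝ} {u : E m} (h : ‖u - c m k x‖ < rho k) :
    Psi m x u = 0 ∨ ‖g m x u - c m k x‖ < rho k := by
  by_cases h0 : Psi m x u = 0
  · exact Or.inl h0
  · right
    have h1 : Psi m x (g m x u) ≠ 0 := by
      intro h2
      have h3 : g m x (g m x u) = g m x u := by
        conv_lhs => unfold g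
        rw [show Psi m x (u + Psi m x u • e0 m) = Psi m x (g m x u) from rfl, h2, zero_smul,
          add_zero]
        rfl
      have h4 := g_inj m x h3
      apply h0
      have h5 : Psi m x u • e0 m = 0 := by
        have : u + Psi m x u • e0 m = u := h4
        simpa using this
      have h6 := congrArg (fun v : E m => v 0) h5
      simpa [e0_zero] using h6
    obtain ⟨l, hl⟩ := Psi_exists h1
    have : k = l := ball_disj (x := x) (y := x) (P_g m x u).symm h hl
    subst this
    exact hl

/-- the conjugacy -/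
theorem H_g (m : ℕ) (x y : ℕ → ℝ) (u : E m) : Hm m x y (g m x u) = g m y (Hm m x y u) := by
  have e : g m y (Hm m x y u) = Hm m x y u + Psi m x u • e0 m := by
    conv_lhs => unfold g
    rw [Psi_H]
  rw [e]
  by_cases h0 : Psi m x u = 0
  · unfold g
    rw [h0, zero_smul, add_zero, add_zero]
  · obtain ⟨k, hk⟩ := Psi_exists h0
    rcases g_marker hk with h1 | h1
    · exact absurd h1 h0
    · rw [H_in h1, H_in hk]
      unfold g
      abel

end Pool.Agent.K3h39.TC
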