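import Pool.Agent.K3h39.TC.NonConj
import Pool.Agent.H468R2.KA.P_F_perm
import Pool.Agent.H468R2.KA.P_F_top
import Pool.Agent.H468R2.KA.P_F_vt
import Pool.Agent.H468R2.MA.P_T_BF
import Pool.Agent.H468R2.MA.P_T_C
import Pool.Agent.H468R2.MA.P_T_CH
import Pool.Agent.H468R2.MA.P_T_LOC
import Pool.Agent.H468R2.MA.P_T_LOC1
import Pool.Agent.H468R2.MA.P_T_SC

/-!
# Topological conjugacy: the family of diffeomorphisms and the theorem
-/

set_option autoImplicit false
set_option linter.unusedSectionVars false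

open Set Filter Topology Metric
open scoped ContDiff NNReal Manifold

namespace Pool.Agent.K3h39.TC

open Pool.Agent.H410R3.DG Pool.Agent.H410R3.KS

universe v

/-- `Hm` is a homeomorphism -/
theorem H_homeo (m : ℕ) {x y : ℕ → ℝ} (h : Summable (fun n => |x n - y n|)) :
    ∃ φ : E m ≃ₜ E m, ∀ u, φ u = Hm m x y u := by
  have hc := H_continuous m h
  have hcl : IsClosedMap (Hm m x y) := by
    have hp : IsProperMap (Hm m x y) := by
      rw [isProperMap_iff_tendsto_cocompact]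
      refine ⟨hc, ?_⟩
      rw [← cobounded_eq_cocompact, ← tendsto_norm_atTop_iff_cobounded]
      have h1 : Tendsto (fun u : E m => ‖u‖ - 1) (Bornology.cobounded (E m)) atTop :=
        tendsto_atTop_add_const_right _ _ tendsto_norm_cobounded_atTop
      refine tendsto_atTop_mono (fun u => ?_) h1
      have h2 : ‖u‖ ≤ ‖Hm m x y u‖ + ‖D m x y u • e0 m‖ := by
        have : u = Hm m x y u - D m x y u • e0 m := by unfold Hm; abel
        calc ‖u‖ = ‖Hm m x y u - D m x y u • e0 m‖ := by rw [← this]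
          _ ≤ _ := norm_sub_le _ _
      rw [norm_smul, norm_e0, mul_one, Real.norm_eq_abs] at h2
      have := abs_D_le m x y u
      linarith
    exact hp.isClosedMap
  exact ⟨(Equiv.ofBijective _ ⟨H_inj m x y, H_surj m h⟩).toHomeomorphOfContinuousClosed hc hcl,
    fun u => rfl⟩

section M

variable {m : ℕ} {M : Type} [TopologicalSpace M] [ChartedSpace (E m) M] [T2Space M]

/-- transplanted homeomorphism -/
noncomputable def trH (e : Emb (E m) M) (φ : E m ≃ₜ E m) (hφ : ∀ u, 6 < ‖u‖ → φ u = u) :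
    M ≃ₜ M where
  toFun := tr e φ
  invFun := tr e φ.symm
  left_inv := fun z => by
    rw [tr_tr]
    have : (φ.symm ∘ φ : E m → E m) = id := by funext u; simp
    rw [this, tr_id]
  right_inv := fun z => by
    rw [tr_tr]
    have : (φ ∘ φ.symm : E m → E m) = id := by funext u; simp
    rw [this, tr_id]
  continuous_toFun := by
    have := tr_cont (X := Unit) e (F := fun _ => φ) (φ.continuous.comp continuous_snd)
      (fun _ u hu => hφ u hu)
    exact this.comp (continuous_const.prodMk continuous_id : Continuous fun z : M => ((), z))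
  continuous_invFun := by
    have := tr_cont (X := Unit) e (F := fun _ => φ.symm) (φ.symm.continuous.comp continuous_snd)
      (fun _ u hu => by rw [Homeomorph.symm_apply_eq, hφ u hu])
    exact this.comp (continuous_const.prodMk continuous_id : Continuous fun z : M => ((), z))

theorem conj_of_summable (e : Emb (E m) M) {x y : ℕ → ℝ} (h : Summable (fun n => |x n - y n|)) :
    TopConj (tr e (g m x)) (tr e (g m y)) := by
  obtain ⟨φ, hφ⟩ := H_homeo m h
  refine ⟨trH e φ (fun u hu => by rw [hφ, H_far hu]), fun z => ?_⟩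
  show tr e φ (tr e (g m x) z) = tr e (g m y) (tr e φ z)
  rw [tr_tr, tr_tr]
  have : (φ ∘ g m x : E m → E m) = g m y ∘ φ := by
    funext u
    simp only [Function.comp]
    rw [hφ, hφ, H_g]
  rw [this]

variable [IsManifold 𝓘(ℝ, E m) ∞ M]

/-- the family of diffeomorphisms of `M` -/
noncomputable def Phi (e : Emb (E m) M) (r : ℕ∞) (x : ℕ → ℝ) : DiffR 𝓘(ℝ, E m) M r :=
  ({ toFun := tr e (g m x)
     invFun := tr e (gH m x).symm
     left_inv := fun z => by
      rw [tr_tr]
      have : ((gH m x).symm ∘ g m x : E m → E m) = id := by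
        funext u; rw [← gH_coe]; simp
      rw [this, tr_id]
     right_inv := fun z => by
      rw [tr_tr]
      have : (g m x ∘ (gH m x).symm : E m → E m) = id := by
        funext u; rw [← gH_coe]; simp
      rw [this, tr_id]
     contMDiff_toFun := (tr_smooth e (g_smooth m x) (fun _ hu => g_far hu)).of_le
       (by exact_mod_cast le_top)
     contMDiff_invFun := (tr_smooth e (g_symm_smooth m x) (fun _ hu => g_symm_far hu)).of_le
       (by exact_mod_cast le_top) } : Diffeomorph 𝓘(ℝ, E m) 𝓘(ℝ, E m) M M (r : WithTop ℕ∞))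

theorem Phi_map (e : Emb (E m) M) (r : ℕ∞) (x : ℕ → ℝ) : (Phi e r x).map = tr e (g m x) := rfl

theorem Phi_continuous (e : Emb (E m) M) (r : ℕ∞) :
    @Continuous _ _ _ (crTopology 𝓘(ℝ, E m) M r) (Phi e r) := by
  refine continuous_of_jetM (Phi e r) ?_ ?_
  · simp only [Phi_map]
    exact tr_cont e (g_cont m) (fun x u hu => g_far hu)
  · simp only [Phi_map]
    exact tr_jet e (fun p => jet_g m r p) (fun x u hu => g_far hu)

end M

/-! ### generic pairs -/

/-- the open sets -/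
def Gs (n : ℕ) : Set ((ℕ → ℝ) × (ℕ → ℝ)) :=
  {p | ∃ k, n ≤ k ∧ p.1 k < 0 ∧ 1 < p.2 k}

theorem open_Gs (n : ℕ) : IsOpen (Gs n) := by
  have h : Gs n = ⋃ k ∈ {k | n ≤ k}, ({p : (ℕ → ℝ) × (ℕ → ℝ) | p.1 k < 0} ∩
      {p : (ℕ → ℝ) × (ℕ → ℝ) | 1 < p.2 k}) := by
    ext p
    simp only [Gs, Set.mem_setOf_eq, Set.mem_iUnion, Set.mem_inter_iff, exists_prop]
  rw [h]
  refine isOpen_biUnion fun k _ => IsOpen.inter ?_ ?_
  · exact isOpen_lt ((continuous_apply k).comp continuous_fst) continuous_const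
  · exact isOpen_lt continuous_const ((continuous_apply k).comp continuous_snd)

theorem tendsto_update (x : ℕ → ℝ) (c : ℝ) :
    Tendsto (fun k => Function.update x k c) atTop (𝓝 x) := by
  rw [tendsto_pi_nhds]
  intro i
  refine tendsto_const_nhds.congr' ?_
  filter_upwards [eventually_gt_atTop i] with k hk
  rw [Function.update_of_ne hk.ne]

theorem dense_Gs (n : ℕ) : Dense (Gs n) := by
  rintro ⟨x, y⟩
  have h := (tendsto_update x (-1)).prodMk_nhds (tendsto_update y 2)
  refine mem_closure_of_tendsto h ?_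
  filter_upwards [eventually_ge_atTop n] with k hk
  refine ⟨k, hk, ?_, ?_⟩
  · simp only [Function.update_self]
    norm_num
  · simp only [Function.update_self]
    norm_num

theorem gen_pair {C : Set (ℕ → ℝ)} (hC : C ∈ residual (ℕ → ℝ)) : ∃ x ∈ C, ∃ y ∈ C,
    ∀ n, ∃ k, n ≤ k ∧ x k < 0 ∧ 1 < y k := by
  have h1 : (Prod.fst : (ℕ → ℝ) × (ℕ → ℝ) → (ℕ → ℝ)) ⁻¹' C ∈ residual ((ℕ → ℝ) × (ℕ → ℝ)) :=
    tendsto_residual_of_isOpenMap continuous_fst isOpenMap_fst hC
  have h2 : (Prod.snd : (ℕ → ℝ) × (ℕ → ℝ) → (ℕ → ℝ)) ⁻¹' C ∈ residual ((ℕ → ℝ) × (ℕ → ℝ)) :=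
    tendsto_residual_of_isOpenMap continuous_snd isOpenMap_snd hC
  have h3 : (⋂ n, Gs n) ∈ residual ((ℕ → ℝ) × (ℕ → ℝ)) :=
    countable_iInter_mem.2 fun n => residual_of_dense_open (open_Gs n) (dense_Gs n)
  have h4 := dense_of_mem_residual (inter_mem (inter_mem h1 h2) h3)
  obtain ⟨p, ⟨⟨hp1, hp2⟩, hp3⟩⟩ := h4.nonempty
  exact ⟨p.1, hp1, p.2, hp2, fun n => Set.mem_iInter.1 hp3 n⟩

open Pool.Agent.H468R2 in
theorem p_F_perm : KA.F_perm.{v} :=
  KA.t_F_perm KA.t_F_top (KA.t_F_vt KA.t_F_top)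
    (MA.t_T_ERG (MA.t_T_C MA.t_T_SC (MA.t_T_LOC MA.t_T_SC (MA.t_T_LOC1 MA.t_T_SC))) MA.t_T_CH)

/-- topological conjugacy is not reducible to an action of `S_∞` -/
theorem main (m : ℕ) (M : Type) [TopologicalSpace M] [ChartedSpace (E m) M]
    [IsManifold 𝓘(ℝ, E m) ∞ M] [T2Space M] [Nonempty M] (r : ℕ∞)
    (Z : Type v) [MeasurableSpace Z] [StandardBorelSpace Z] [MulAction (Equiv.Perm ℕ) Z]
    (hZ : @Measurable _ _ (Pool.Agent.H468R2.KA.permMS.prod inferInstance) _
      (fun p : Equiv.Perm ℕ × Z => p.1 • p.2)) :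
    ¬ ∃ f : DiffR 𝓘(ℝ, E m) M r → Z,
      @Measurable _ _ (@borel _ (crTopology 𝓘(ℝ, E m) M r)) inferInstance f ∧
      ∀ S T : DiffR 𝓘(ℝ, E m) M r, TopConj S.map T.map ↔ ∃ π : Equiv.Perm ℕ, π • f S = f T := by
  rintro ⟨f, hf, hr⟩
  obtain ⟨e⟩ := exists_emb m M
  have hm : Measurable (fun x : ℕ → ℝ => f (Phi e r x)) := by
    have h1 : @Measurable _ _ inferInstance (@borel _ (crTopology 𝓘(ℝ, E m) M r)) (Phi e r) := by
      let _ := crTopology 𝓘(ℝ, E m) M r
      let _ : MeasurableSpace (DiffR 𝓘(ℝ, E m) M r) := borel _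
      have _ : BorelSpace (DiffR 𝓘(ℝ, E m) M r) := ⟨rfl⟩
      exact (Phi_continuous e r).measurable
    exact @Measurable.comp _ _ _ _ (@borel _ (crTopology 𝓘(ℝ, E m) M r)) _ _ _ hf h1
  obtain ⟨C, hC, hCC⟩ := p_F_perm Z hZ (fun x => f (Phi e r x)) hm (fun x y hxy =>
    (hr _ _).1 (by rw [Phi_map, Phi_map]; exact conj_of_summable e hxy))
  obtain ⟨x, hx, y, hy, hxy⟩ := gen_pair hC
  have h1 := (hr _ _).2 (hCC x hx y hy)
  rw [Phi_map, Phi_map] at h1
  exact not_conj e hxy h1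

end Pool.Agent.K3h39.TC
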