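import Pool.Agent.K3h39.TC.Psi

/-!
# Topological conjugacy: the diffeomorphisms of Euclidean space
-/

set_option autoImplicit false

open Set Filter Topology Metric
open scoped ContDiff NNReal

namespace Pool.Agent.K3h39.TC

open Pool.Agent.H410R3.DG

/-- the map -/
noncomputable def g (m : ℕ) (x : ℕ → ℝ) (u : E m) : E m := u + Psi m x u • e0 m

theorem g_smooth (m : ℕ) (x : ℕ → ℝ) : ContDiff ℝ ∞ (g m x) :=
  contDiff_id.add ((Psi_smooth m x).smul contDiff_const)

theorem g_far {m : ℕ} {x : ℕ → ℝ} {u : E m} (h : 6 < ‖u‖) : g m x u = u := by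
  unfold g; rw [Psi_far h, zero_smul, add_zero]

theorem P_g (m : ℕ) (x : ℕ → ℝ) (u : E m) : P m (g m x u) = P m u := by
  unfold g; rw [P_add, P_smul, P_e0, smul_zero, add_zero]

theorem norm_refl_symm (m : ℕ) :
    ‖((ContinuousLinearEquiv.refl ℝ (E m)).symm : E m →L[ℝ] E m)‖₊ = 1 := by
  have h : ((ContinuousLinearEquiv.refl ℝ (E m)).symm : E m →L[ℝ] E m) =
      ContinuousLinearMap.id ℝ (E m) := rfl
  rw [h]
  have := ContinuousLinearMap.norm_id (𝕜 := ℝ) (E := E m)
  exact NNReal.eq this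

theorem g_approx (m : ℕ) (x : ℕ → ℝ) : ApproximatesLinearOn (g m x)
    ((ContinuousLinearEquiv.refl ℝ (E m)) : E m →L[ℝ] E m) univ (1/4 : ℝ≥0) := by
  intro u _ v _
  have h : g m x u - g m x v - ((ContinuousLinearEquiv.refl ℝ (E m)) : E m →L[ℝ] E m) (u - v) =
      (Psi m x u - Psi m x v) • e0 m := by
    unfold g
    simp only [ContinuousLinearEquiv.coe_refl, ContinuousLinearMap.coe_id', id_eq]
    module
  rw [h, norm_smul, norm_e0, mul_one, Real.norm_eq_abs]
  have := Psi_lip m x u v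
  simpa using this

/-- the homeomorphism -/
noncomputable def gH (m : ℕ) (x : ℕ → ℝ) : E m ≃ₜ E m :=
  (g_approx m x).toHomeomorph (g m x) (Or.inr (by
    rw [norm_refl_symm, inv_one]
    rw [← NNReal.coe_lt_coe]
    norm_num))

theorem gH_coe (m : ℕ) (x : ℕ → ℝ) : (gH m x : E m → E m) = g m x := rfl

theorem g_inj (m : ℕ) (x : ℕ → ℝ) : Function.Injective (g m x) := by
  rw [← gH_coe]; exact (gH m x).injective

theorem fderiv_Psi_le (m : ℕ) (x : ℕ → ℝ) (u : E m) : ‖fderiv ℝ (Psi m x) u‖ ≤ 1/4 := by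
  have h : LipschitzWith (1/4) (Psi m x) := by
    refine LipschitzWith.of_dist_le_mul fun u v => ?_
    rw [Real.dist_eq, dist_eq_norm]
    have := Psi_lip m x u v
    simpa using this
  have := norm_fderiv_le_of_lipschitz ℝ h (x₀ := u)
  simpa using this

/-- the derivative -/
noncomputable def g' (m : ℕ) (x : ℕ → ℝ) (u : E m) : E m →L[ℝ] E m :=
  ContinuousLinearMap.id ℝ (E m) + (fderiv ℝ (Psi m x) u).smulRight (e0 m)

theorem g'_inj (m : ℕ) (x : ℕ → ℝ) (u : E m) : Function.Injective (g' m x u) := by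
  rw [injective_iff_map_eq_zero]
  intro v hv
  unfold g' at hv
  simp only [_root_.add_apply, ContinuousLinearMap.coe_id', id_eq,
    ContinuousLinearMap.smulRight_apply] at hv
  have h1 : ‖(fderiv ℝ (Psi m x) u) v‖ ≤ (1/4) * ‖v‖ :=
    ((fderiv ℝ (Psi m x) u).le_opNorm v).trans
      (mul_le_mul_of_nonneg_right (fderiv_Psi_le m x u) (norm_nonneg _))
  have h2 : ‖v‖ = ‖(fderiv ℝ (Psi m x) u) v • e0 m‖ := by
    rw [← norm_neg]
    congr 1
    rw [neg_eq_iff_add_eq_zero]
    exact hv
  rw [norm_smul, norm_e0, mul_one] at h2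
  have h3 : ‖v‖ ≤ 0 := by
    have := norm_nonneg v
    linarith
  exact norm_le_zero_iff.1 h3

theorem g_hasFDerivAt (m : ℕ) (x : ℕ → ℝ) (u : E m) : HasFDerivAt (g m x) (g' m x u) u := by
  have h1 : HasFDerivAt (Psi m x) (fderiv ℝ (Psi m x) u) u :=
    (((Psi_smooth m x).differentiable (by simp)).differentiableAt).hasFDerivAt
  exact (hasFDerivAt_id u).add (h1.smul_const (e0 m))

theorem g_symm_smooth (m : ℕ) (x : ℕ → ℝ) : ContDiff ℝ ∞ (gH m x).symm := by
  let L : E m → E m ≃L[ℝ] E m := fun u =>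
    (LinearEquiv.ofInjectiveEndo (g' m x u : E m →ₗ[ℝ] E m) (g'_inj m x u)).toContinuousLinearEquiv
  refine (gH m x).contDiff_symm (f₀' := L) (fun u => ?_) ?_
  · have h : (L u : E m →L[ℝ] E m) = g' m x u := by
      ext v : 1
      rfl
    rw [h, gH_coe]
    exact g_hasFDerivAt m x u
  · rw [gH_coe]
    exact g_smooth m x

theorem g_symm_far {m : ℕ} {x : ℕ → ℝ} {u : E m} (h : 6 < ‖u‖) : (gH m x).symm u = u := by
  rw [Homeomorph.symm_apply_eq, gH_coe, g_far h]

theorem jet_g (m : ℕ) (r : ℕ∞) (p : (ℕ → ℝ) × E m) : JetAt r (g m) p := by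
  refine ⟨Eventually.of_forall fun q => ?_, fun j hj => ?_⟩
  · exact ((g_smooth m q.1).of_le (by exact_mod_cast le_top)).contDiffAt
  · have h1 : (fun q : (ℕ → ℝ) × E m => iteratedFDeriv ℝ j (g m q.1) q.2) = fun q =>
        iteratedFDeriv ℝ j (fun u : E m => u) q.2 +
        (ContinuousLinearMap.toSpanSingleton ℝ (e0 m)).compContinuousMultilinearMap
          (iteratedFDeriv ℝ j (Psi m q.1) q.2) := by
      funext q
      have e1 : g m q.1 = (fun u : E m => u) +
          (ContinuousLinearMap.toSpanSingleton ℝ (e0 m)) ∘ (Psi m q.1) := by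
        funext u
        simp [g]
      have c1 : ContDiff ℝ j (Psi m q.1) := (Psi_smooth m q.1).of_le (by exact_mod_cast le_top)
      have c2 : ContDiff ℝ j (fun u : E m => u) := contDiff_id
      rw [e1, iteratedFDeriv_add_apply c2.contDiffAt
        ((ContinuousLinearMap.contDiff _).comp c1).contDiffAt]
      congr 1
      exact ContinuousLinearMap.iteratedFDeriv_comp_left _ c1.contDiffAt le_rfl
    rw [h1]
    refine ContinuousAt.add ?_ ?_
    · have : Continuous (iteratedFDeriv ℝ j (fun u : E m => u)) :=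
        (contDiff_id (𝕜 := ℝ) (E := E m) (n := j)).continuous_iteratedFDeriv le_rfl
      exact this.continuousAt.comp continuousAt_snd
    · have h2 := (jet_Psi m r p).2 j hj
      have h3 : Continuous (fun T : ContinuousMultilinearMap ℝ (fun _ : Fin j => E m) ℝ =>
          (ContinuousLinearMap.toSpanSingleton ℝ (e0 m)).compContinuousMultilinearMap T) :=
        (ContinuousLinearMap.compContinuousMultilinearMapL ℝ (fun _ : Fin j => E m) ℝ (E m)
          (ContinuousLinearMap.toSpanSingleton ℝ (e0 m))).continuous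
      exact h3.continuousAt.comp h2

theorem g_cont (m : ℕ) : Continuous (fun q : (ℕ → ℝ) × E m => g m q.1 q.2) := by
  rw [continuous_iff_continuousAt]
  intro p
  exact (jet_g m 0 p).continuousAt

end Pool.Agent.K3h39.TC
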