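import Pool.Agent.K3h39.TC.Conj
import Pool.Agent.H410R3.DG.JetM

/-!
# Topological conjugacy: transplanting into a manifold
-/

set_option autoImplicit false
set_option linter.unusedSectionVars false

open Set Filter Topology Metric
open scoped ContDiff NNReal Manifold

namespace Pool.Agent.K3h39.TC

open Pool.Agent.H410R3.DG Pool.Agent.H410R3.KS

section General

variable {V : Type} [NormedAddCommGroup V] [NormedSpace ℝ V] [FiniteDimensional ℝ V]
  {M : Type} [TopologicalSpace M] [ChartedSpace V M]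

/-- A family of diffeomorphisms with jointly continuous jets is continuous in the `C^r` topology. -/
theorem continuous_of_jetM {r : ℕ∞} [IsManifold 𝓘(ℝ, V) ∞ M] {X : Type*} [TopologicalSpace X]
    (Φ : X → DiffR 𝓘(ℝ, V) M r)
    (hev : Continuous (fun q : X × M => (Φ q.1).map q.2))
    (hjet : JetM V r (fun x : X => (Φ x).map)) :
    @Continuous _ _ _ (crTopology 𝓘(ℝ, V) M r) Φ := by
  refine continuous_generateFrom_iff.2 ?_
  rintro S ⟨f₀, x, y, K, k, ε, hK, hKx, hKy, hk, hε, rfl⟩
  rw [isOpen_iff_mem_nhds]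
  intro g hg
  have key : ∀ z ∈ K, ∀ᶠ q : X × M in 𝓝 (g, z),
      (Φ q.1).map q.2 ∈ (chartAt V y).source ∧ ∀ j ∈ Finset.range (k+1),
        ‖iteratedFDeriv ℝ j (localRep 𝓘(ℝ, V) x y (Φ q.1).map) (extChartAt 𝓘(ℝ, V) x q.2) -
          iteratedFDeriv ℝ j (localRep 𝓘(ℝ, V) x y f₀.map) (extChartAt 𝓘(ℝ, V) x q.2)‖ < ε := by
    intro z hz
    have hzx := hKx hz
    refine (hev.continuousAt.eventually ((chartAt V y).open_source.mem_nhds (hg.1 hz))).and ?_
    refine (Filter.eventually_all_finset _).2 fun j hj => ?_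
    have hjk : j ≤ k := by simpa [Nat.lt_succ_iff] using hj
    have hjr : (j : ℕ∞) ≤ r := le_trans (by exact_mod_cast hjk) hk
    have hw : (chartAt V x) z ∈ (chartAt V x).target := (chartAt V x).map_source hzx
    have hcz : ContinuousAt (fun q : X × M => (q.1, (chartAt V x) q.2)) (g, z) :=
      continuousAt_fst.prodMk (((chartAt V x).continuousAt hzx).comp continuousAt_snd)
    have hcz0 : ContinuousAt (fun q : X × M => (chartAt V x) q.2) (g, z) :=
      (((chartAt V x).continuousAt hzx).comp continuousAt_snd)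
    have h1 := (hjet x y g _ hw (by
      rw [(chartAt V x).left_inv hzx]; exact hg.1 hz)).2 j hjr
    have h2 : ContinuousAt (fun w' => iteratedFDeriv ℝ j (localRep 𝓘(ℝ, V) x y f₀.map) w')
        ((chartAt V x) z) := by
      have hjr' : ((j : ℕ) : WithTop ℕ∞) ≤ (r : WithTop ℕ∞) := by exact_mod_cast hjr
      have hfw : f₀.map ((chartAt V x).symm ((chartAt V x) z)) ∈ (chartAt V y).source := by
        rw [(chartAt V x).left_inv hzx]; exact hKy hz
      exact (((contDiffOn_localRep x y (DiffR.contMDiff' f₀)).contDiffAt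
        ((isOpen_dom x y (Diffeomorph.continuous f₀)).mem_nhds ⟨hw, hfw⟩)).of_le
          hjr').continuousAt_iteratedFDeriv le_rfl
    have h3 := ContinuousAt.comp (f := fun q : X × M => (q.1, (chartAt V x) q.2))
      (g := fun q : X × V =>
        iteratedFDeriv ℝ j (localRep 𝓘(ℝ, V) x y (Φ q.1).map) q.2) h1 hcz
    have h4 := ContinuousAt.comp (f := fun q : X × M => (chartAt V x) q.2)
      (g := fun w : V =>
        iteratedFDeriv ℝ j (localRep 𝓘(ℝ, V) x y f₀.map) w) h2 hcz0
    have h5 := (h3.sub h4).norm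
    have h6 := h5.eventually (gt_mem_nhds (show _ < ε from hg.2 z hz j hjk))
    filter_upwards [h6] with q hq
    exact hq
  have := hK.eventually_forall_of_forall_eventually (x₀ := g) (P := fun g' z =>
      (Φ g').map z ∈ (chartAt V y).source ∧ ∀ j ∈ Finset.range (k+1),
        ‖iteratedFDeriv ℝ j (localRep 𝓘(ℝ, V) x y (Φ g').map) (extChartAt 𝓘(ℝ, V) x z) -
          iteratedFDeriv ℝ j (localRep 𝓘(ℝ, V) x y f₀.map) (extChartAt 𝓘(ℝ, V) x z)‖ < ε) key
  filter_upwards [this] with g' hg'
  refine ⟨fun z hz => (hg' z hz).1, fun z hz j hj => (hg' z hz).2 j ?_⟩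
  simpa [Nat.lt_succ_iff] using hj

variable (V M) in
/-- a smooth open embedding of the model space -/
structure Emb where
  /-- the embedding -/
  J : OpenPartialHomeomorph V M
  src : J.source = univ
  sm : ContMDiff 𝓘(ℝ, V) 𝓘(ℝ, V) ∞ J
  sm' : ContMDiffOn 𝓘(ℝ, V) 𝓘(ℝ, V) ∞ J.symm J.target

theorem Emb.inj (e : Emb V M) : Function.Injective e.J := by
  have h := e.J.injOn
  rw [e.src] at h
  exact injOn_univ.1 h

theorem Emb.mem (e : Emb V M) (u : V) : e.J u ∈ e.J.target :=
  e.J.map_source (by rw [e.src]; exact mem_univ _)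

theorem Emb.linv (e : Emb V M) (u : V) : e.J.symm (e.J u) = u :=
  e.J.left_inv (by rw [e.src]; exact mem_univ _)

theorem Emb.cont (e : Emb V M) : Continuous e.J := by
  have h := e.J.continuousOn
  rw [e.src] at h
  exact continuousOn_univ.1 h

theorem Emb.isOpenMap (e : Emb V M) : IsOpenMap e.J := fun S hS =>
  e.J.isOpen_image_of_subset_source hS (by rw [e.src]; exact subset_univ _)

open Classical in
/-- transplanted map -/
noncomputable def tr (e : Emb V M) (F : V → V) (z : M) : M :=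
  if z ∈ e.J.target then e.J (F (e.J.symm z)) else z

theorem tr_mem {e : Emb V M} {F : V → V} {z : M} (h : z ∈ e.J.target) :
    tr e F z = e.J (F (e.J.symm z)) := by
  unfold tr; rw [if_pos h]

theorem tr_not_mem {e : Emb V M} {F : V → V} {z : M} (h : z ∉ e.J.target) :
    tr e F z = z := by
  unfold tr; rw [if_neg h]

theorem tr_J (e : Emb V M) (F : V → V) (u : V) : tr e F (e.J u) = e.J (F u) := by
  rw [tr_mem (e.mem u), e.linv]

theorem tr_tr (e : Emb V M) (F G : V → V) (z : M) : tr e F (tr e G z) = tr e (F ∘ G) z := by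
  by_cases h : z ∈ e.J.target
  · rw [tr_mem h, tr_J, tr_mem h]; rfl
  · rw [tr_not_mem (F := G) h, tr_not_mem h, tr_not_mem h]

theorem tr_id (e : Emb V M) (z : M) : tr e id z = z := by
  by_cases h : z ∈ e.J.target
  · rw [tr_mem h, id, e.J.right_inv h]
  · exact tr_not_mem h

theorem tr_far {e : Emb V M} {F : V → V} (hF : ∀ u, 6 < ‖u‖ → F u = u) {z : M}
    (h : z ∉ e.J '' closedBall 0 6) : tr e F z = z := by
  by_cases hz : z ∈ e.J.target
  · rw [tr_mem hz, hF, e.J.right_inv hz]
    by_contra h1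
    push Not at h1
    refine h ⟨e.J.symm z, ?_, e.J.right_inv hz⟩
    rwa [mem_closedBall_zero_iff]
  · exact tr_not_mem hz

theorem Emb.isClosed_ball [T2Space M] (e : Emb V M) : IsClosed (e.J '' closedBall 0 6) := by
  have : ProperSpace V := FiniteDimensional.proper ℝ V
  exact ((isCompact_closedBall (0 : V) 6).image e.cont).isClosed

theorem tr_cont [T2Space M] {X : Type*} [TopologicalSpace X] (e : Emb V M) {F : X → V → V}
    (hc : Continuous (fun q : X × V => F q.1 q.2)) (hF : ∀ x u, 6 < ‖u‖ → F x u = u) :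
    Continuous (fun q : X × M => tr e (F q.1) q.2) := by
  rw [continuous_iff_continuousAt]
  rintro ⟨x, z⟩
  by_cases hz : z ∈ e.J.target
  · have h1 : ContinuousAt (fun q : X × M => e.J (F q.1 (e.J.symm q.2))) (x, z) := by
      have h2 : ContinuousAt (fun q : X × M => (q.1, e.J.symm q.2)) (x, z) :=
        continuousAt_fst.prodMk ((e.J.symm.continuousAt hz).comp continuousAt_snd)
      exact (e.cont.comp hc).continuousAt.comp h2
    refine h1.congr ?_
    filter_upwards [continuousAt_snd.eventually (e.J.open_target.mem_nhds hz)] with q hq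
    exact (tr_mem hq).symm
  · have hz' : z ∈ (e.J '' closedBall 0 6)ᶜ := by
      rintro ⟨u, -, rfl⟩
      exact hz (e.mem u)
    refine ContinuousAt.congr (f := fun q : X × M => q.2) continuousAt_snd ?_
    filter_upwards [continuousAt_snd.eventually (e.isClosed_ball.isOpen_compl.mem_nhds hz')]
      with q hq
    exact (tr_far (hF q.1) hq).symm

theorem tr_jet [T2Space M] [IsManifold 𝓘(ℝ, V) ∞ M] {X : Type*} [TopologicalSpace X] (e : Emb V M)
    {F : X → V → V} {r : ℕ∞} (hj : ∀ p, JetAt r F p) (hF : ∀ x u, 6 < ‖u‖ → F x u = u) :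
    JetM V r (fun x => tr e (F x)) := by
  intro x y f w hw hfw
  by_cases hz : (chartAt V x).symm w ∈ e.J.target
  · -- inside
    have hΩ1 : IsOpen {w' | w' ∈ (chartAt V x).target ∧ (chartAt V x).symm w' ∈ e.J.target} :=
      (chartAt V x).continuousOn_symm.isOpen_inter_preimage (chartAt V x).open_target
        e.J.open_target
    have hΩ2 : IsOpen {u | e.J u ∈ (chartAt V y).source} :=
      (chartAt V y).open_source.preimage e.cont
    have hA : ContDiffOn ℝ r (fun w' => e.J.symm ((chartAt V x).symm w'))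
        {w' | w' ∈ (chartAt V x).target ∧ (chartAt V x).symm w' ∈ e.J.target} := by
      rw [← contMDiffOn_iff_contDiffOn]
      have h2 : ContMDiffOn 𝓘(ℝ, V) 𝓘(ℝ, V) ∞ (extChartAt 𝓘(ℝ, V) x).symm
        (extChartAt 𝓘(ℝ, V) x).target := contMDiffOn_extChartAt_symm x
      have h3 : ContMDiffOn 𝓘(ℝ, V) 𝓘(ℝ, V) ∞
          (fun w' => e.J.symm ((extChartAt 𝓘(ℝ, V) x).symm w'))
          {w' | w' ∈ (chartAt V x).target ∧ (chartAt V x).symm w' ∈ e.J.target} := by
        refine e.sm'.comp (h2.mono ?_) ?_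
        · rintro w' ⟨h, -⟩; simpa [mfld_simps] using h
        · rintro w' ⟨-, h⟩; simpa [mfld_simps] using h
      simp only [mfld_simps] at h3
      exact h3.of_le (by exact_mod_cast le_top)
    have hB : ContDiffOn ℝ r (fun u => (chartAt V y) (e.J u)) {u | e.J u ∈ (chartAt V y).source} := by
      rw [← contMDiffOn_iff_contDiffOn]
      have h1 : ContMDiffOn 𝓘(ℝ, V) 𝓘(ℝ, V) ∞ (extChartAt 𝓘(ℝ, V) y) (chartAt V y).source :=
        contMDiffOn_extChartAt
      have h3 : ContMDiffOn 𝓘(ℝ, V) 𝓘(ℝ, V) ∞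
          (fun u => extChartAt 𝓘(ℝ, V) y (e.J u)) {u | e.J u ∈ (chartAt V y).source} :=
        h1.comp e.sm.contMDiffOn (fun u hu => hu)
      simp only [mfld_simps] at h3
      exact h3.of_le (by exact_mod_cast le_top)
    have jA := jetAt_const (Z := X) (p := (f, w)) hΩ1 hA ⟨hw, hz⟩
    have jFA := JetAt.comp (p := (f, w)) (hj _) jA
    have jB : JetAt (Z := X) r (fun _ => fun u => (chartAt V y) (e.J u))
        (f, F f (e.J.symm ((chartAt V x).symm w))) := by
      refine jetAt_const hΩ2 hB ?_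
      show e.J (F f (e.J.symm ((chartAt V x).symm w))) ∈ (chartAt V y).source
      rw [← tr_mem hz]; exact hfw
    have jall := JetAt.comp (p := (f, w)) (v := fun f => F f ∘
      (fun w' => e.J.symm ((chartAt V x).symm w'))) jB jFA
    refine jall.congr ?_
    filter_upwards [continuousAt_snd.eventually (hΩ1.mem_nhds (show w ∈ _ from ⟨hw, hz⟩))] with q hq
    filter_upwards [hΩ1.mem_nhds hq] with w' hw'
    rw [localRep_eq, tr_mem hw'.2]
    rfl
  · -- outside
    have hz' : (chartAt V x).symm w ∈ (e.J '' closedBall 0 6)ᶜ := by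
      rintro ⟨u, -, hu⟩
      exact hz (hu ▸ e.mem u)
    have hfw' : id ((chartAt V x).symm w) ∈ (chartAt V y).source := by
      have hfw2 : tr e (F f) ((chartAt V x).symm w) ∈ (chartAt V y).source := hfw
      rw [tr_not_mem hz] at hfw2; exact hfw2
    have h1 : ContDiffOn ℝ r (localRep 𝓘(ℝ, V) x y id) _ :=
      contDiffOn_localRep (r := r) x y (f := (id : M → M)) contMDiff_id
    have h2 : JetAt (Z := X) r (fun _ => localRep 𝓘(ℝ, V) x y id) (f, w) :=
      jetAt_const (isOpen_dom x y continuous_id) h1 ⟨hw, hfw'⟩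
    have hΩ3 : IsOpen {w' | w' ∈ (chartAt V x).target ∧
        (chartAt V x).symm w' ∈ (e.J '' closedBall 0 6)ᶜ} :=
      (chartAt V x).continuousOn_symm.isOpen_inter_preimage (chartAt V x).open_target
        e.isClosed_ball.isOpen_compl
    refine h2.congr ?_
    filter_upwards [continuousAt_snd.eventually (hΩ3.mem_nhds (show w ∈ _ from ⟨hw, hz'⟩))]
      with q hq
    filter_upwards [hΩ3.mem_nhds hq] with w' hw'
    rw [localRep_eq, localRep_eq, tr_far (hF q.1) hw'.2]
    rfl

theorem tr_smooth [T2Space M] (e : Emb V M) {F : V → V} (hs : ContDiff ℝ ∞ F)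
    (hF : ∀ u, 6 < ‖u‖ → F u = u) : ContMDiff 𝓘(ℝ, V) 𝓘(ℝ, V) ∞ (tr e F) := by
  intro z
  by_cases hz : z ∈ e.J.target
  · have h4 : ContMDiffOn 𝓘(ℝ, V) 𝓘(ℝ, V) ∞ (e.J ∘ F ∘ e.J.symm) e.J.target :=
      e.sm.comp_contMDiffOn (hs.contMDiff.comp_contMDiffOn e.sm')
    have h5 : ContMDiffAt 𝓘(ℝ, V) 𝓘(ℝ, V) ∞ (e.J ∘ F ∘ e.J.symm) z :=
      (h4 z hz).contMDiffAt (e.J.open_target.mem_nhds hz)
    refine h5.congr_of_eventuallyEq ?_
    filter_upwards [e.J.open_target.mem_nhds hz] with z' hz'
    exact tr_mem hz'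
  · have hz' : z ∈ (e.J '' closedBall 0 6)ᶜ := by
      rintro ⟨u, -, rfl⟩
      exact hz (e.mem u)
    have h5 : ContMDiffAt 𝓘(ℝ, V) 𝓘(ℝ, V) ∞ (id : M → M) z := contMDiffAt_id
    refine h5.congr_of_eventuallyEq ?_
    filter_upwards [e.isClosed_ball.isOpen_compl.mem_nhds hz'] with z' hz'
    exact tr_far hF hz'

end General

/-- every non-empty manifold has such an embedding -/
theorem exists_emb (m : ℕ) (M : Type) [TopologicalSpace M] [ChartedSpace (E m) M]
    [IsManifold 𝓘(ℝ, E m) ∞ M] [Nonempty M] : Nonempty (Emb (E m) M) := by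
  obtain ⟨p⟩ := ‹Nonempty M›
  have h0 : (chartAt (E m) p) p ∈ (chartAt (E m) p).target :=
    (chartAt (E m) p).map_source (mem_chart_source _ p)
  obtain ⟨ε, hε, hb⟩ := Metric.isOpen_iff.1 (chartAt (E m) p).open_target _ h0
  set B := OpenPartialHomeomorph.univBall ((chartAt (E m) p) p) ε with hB
  have hBm : ∀ u, B u ∈ ball ((chartAt (E m) p) p) ε := by
    intro u
    rw [← OpenPartialHomeomorph.univBall_target _ hε]
    exact B.map_source (by rw [hB, OpenPartialHomeomorph.univBall_source]; exact mem_univ _)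
  have h2 : ContMDiffOn 𝓘(ℝ, E m) 𝓘(ℝ, E m) ∞ (chartAt (E m) p).symm (chartAt (E m) p).target := by
    have := contMDiffOn_extChartAt_symm (I := 𝓘(ℝ, E m)) (n := ∞) p
    simpa only [mfld_simps] using this
  have h1 : ContMDiffOn 𝓘(ℝ, E m) 𝓘(ℝ, E m) ∞ (chartAt (E m) p) (chartAt (E m) p).source := by
    have := contMDiffOn_extChartAt (I := 𝓘(ℝ, E m)) (n := ∞) (x := p)
    simpa only [mfld_simps] using this
  have hBs : ContDiff ℝ ∞ B := OpenPartialHomeomorph.contDiff_univBall
  have hBs' : ContDiffOn ℝ ∞ B.symm (ball ((chartAt (E m) p) p) ε) :=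
    OpenPartialHomeomorph.contDiffOn_univBall_symm
  refine ⟨⟨B.trans (chartAt (E m) p).symm, ?_, ?_, ?_⟩⟩
  · rw [OpenPartialHomeomorph.trans_source, hB, OpenPartialHomeomorph.univBall_source, univ_inter,
      eq_univ_iff_forall]
    intro u
    exact hb (hBm u)
  · exact h2.comp_contMDiff hBs.contMDiff (fun u => hb (hBm u))
  · have ht : (B.trans (chartAt (E m) p).symm).target =
        (chartAt (E m) p).source ∩ (chartAt (E m) p) ⁻¹' (ball ((chartAt (E m) p) p) ε) := by
      rw [OpenPartialHomeomorph.trans_target, hB, OpenPartialHomeomorph.univBall_target _ hε]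
      simp only [OpenPartialHomeomorph.symm_target, OpenPartialHomeomorph.symm_symm]
    rw [ht]
    exact hBs'.contMDiffOn.comp (h1.mono inter_subset_left) (fun z hz => hz.2)

end Pool.Agent.K3h39.TC
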