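import Pool.Agent.K3h39.TC.Man

/-!
# Topological conjugacy: non-conjugate members of the family
-/

set_option autoImplicit false
set_option linter.unusedSectionVars false

open Set Filter Topology Metric
open scoped ContDiff NNReal Manifold

namespace Pool.Agent.K3h39.TC

open Pool.Agent.H410R3.DG Pool.Agent.H410R3.KS

section Match

variable {Z : Type*} [TopologicalSpace Z]

theorem match_sub (h : Z ≃ₜ Z) {A B : ℕ → Set Z} (hBo : ∀ k, IsOpen (B k))
    (hAc : ∀ k, IsConnected (A k)) (hBd : Pairwise (Function.onFun Disjoint B))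
    (hU : h '' (⋃ k, A k) ⊆ ⋃ k, B k) (k : ℕ) : ∃ l, h '' A k ⊆ B l := by
  obtain ⟨a, ha⟩ := (hAc k).nonempty
  obtain ⟨l, hl⟩ := mem_iUnion.1 (hU ⟨a, mem_iUnion.2 ⟨k, ha⟩, rfl⟩)
  refine ⟨l, ?_⟩
  refine IsPreconnected.subset_left_of_subset_union (u := B l) (v := ⋃ l' ∈ {l' | l' ≠ l}, B l')
    (hBo l) (isOpen_biUnion fun l' _ => hBo l') ?_ ?_ ⟨h a, ⟨a, ha, rfl⟩, hl⟩
    ((hAc k).isPreconnected.image _ h.continuous.continuousOn)
  · refine disjoint_iUnion₂_right.2 fun l' hl' => ?_
    exact hBd (Ne.symm hl')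
  · rintro _ ⟨b, hb, rfl⟩
    obtain ⟨l', hl'⟩ := mem_iUnion.1 (hU ⟨b, mem_iUnion.2 ⟨k, hb⟩, rfl⟩)
    by_cases e : l' = l
    · subst e; exact Or.inl hl'
    · exact Or.inr (mem_iUnion₂.2 ⟨l', e, hl'⟩)

theorem match_eq (h : Z ≃ₜ Z) {A B : ℕ → Set Z} (hAo : ∀ k, IsOpen (A k)) (hBo : ∀ k, IsOpen (B k))
    (hAc : ∀ k, IsConnected (A k)) (hBc : ∀ k, IsConnected (B k))
    (hAd : Pairwise (Function.onFun Disjoint A)) (hBd : Pairwise (Function.onFun Disjoint B))
    (hU : h '' (⋃ k, A k) = ⋃ k, B k) (k : ℕ) : ∃ l, h '' A k = B l := by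
  obtain ⟨l, hl⟩ := match_sub h hBo hAc hBd hU.subset k
  have hU' : h.symm '' (⋃ k, B k) ⊆ ⋃ k, A k := by
    rw [← hU]
    rintro _ ⟨_, ⟨b, hb, rfl⟩, rfl⟩
    rwa [h.symm_apply_apply]
  obtain ⟨k', hk'⟩ := match_sub h.symm hAo hBc hAd hU' l
  refine ⟨l, Subset.antisymm hl ?_⟩
  obtain ⟨a, ha⟩ := (hAc k).nonempty
  have h1 : a ∈ A k' := by
    have := hk' ⟨h a, hl ⟨a, ha, rfl⟩, rfl⟩
    rwa [h.symm_apply_apply] at this
  have h2 : k' = k := by
    by_contra e
    exact (disjoint_left.1 (hAd e)) h1 ha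
  subst h2
  intro b hb
  exact ⟨h.symm b, hk' ⟨b, hb, rfl⟩, h.apply_symm_apply b⟩

end Match

/-- translated marker -/
def T (m k : ℕ) (x : ℕ → ℝ) : Set (E m) := (fun u => u - c m k x) ⁻¹' (W m k)

theorem T_open (m k : ℕ) (x : ℕ → ℝ) : IsOpen (T m k x) :=
  (W_open m k).preimage (by fun_prop)

theorem T_eq_image (m k : ℕ) (x : ℕ → ℝ) (S : Set (E m)) :
    (fun u => u - c m k x) ⁻¹' S = (fun u => u + c m k x) '' S := by
  ext u
  constructor
  · intro h
    exact ⟨u - c m k x, h, sub_add_cancel _ _⟩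
  · rintro ⟨v, hv, rfl⟩
    simpa using hv

theorem T_conn (m k : ℕ) (x : ℕ → ℝ) : IsConnected (T m k x) := by
  unfold T
  rw [T_eq_image]
  exact (W_conn m k).image _ (by fun_prop)

theorem T_sub (m k : ℕ) (x : ℕ → ℝ) : T m k x ⊆ ball (c m k x) (rho k) := by
  intro u hu
  have := W_subset m k hu
  rw [mem_ball_zero_iff] at this
  rwa [mem_ball_iff_norm]

theorem T_disj (m : ℕ) (x : ℕ → ℝ) {k l : ℕ} (h : k ≠ l) : Disjoint (T m k x) (T m l x) := by
  refine disjoint_left.2 fun u h1 h2 => h ?_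
  have h1 := T_sub m k x h1
  have h2 := T_sub m l x h2
  rw [mem_ball_iff_norm] at h1 h2
  exact ball_disj (x := x) (y := x) rfl h1 h2

theorem closure_T (m k : ℕ) (x : ℕ → ℝ) : closure (T m k x) = closedBall (c m k x) (rho k) := by
  have h := (Homeomorph.subRight (c m k x)).preimage_closure (W m k)
  have e : (Homeomorph.subRight (c m k x) : E m → E m) = fun u => u - c m k x := rfl
  rw [e] at h
  unfold T
  rw [← h, closure_W]
  ext u
  rw [mem_preimage, mem_closedBall_zero_iff, mem_closedBall_iff_norm]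

theorem ball_diff_T (m k : ℕ) (x : ℕ → ℝ) : ball (c m k x) (rho k) \ T m k x =
    (fun u => u + c m k x) '' (OpenPartialHomeomorph.univBall (0 : E m) (rho k) '' (Hol m k)) := by
  rw [← T_eq_image]
  ext u
  have hsub : OpenPartialHomeomorph.univBall (0 : E m) (rho k) '' (Hol m k) ⊆ ball 0 (rho k) := by
    rw [← univBall_range m (rho_pos k)]
    exact image_subset_range _ _
  simp only [T, Set.mem_sdiff, mem_preimage, W_eq]
  rw [mem_ball_iff_norm, mem_ball_zero_iff]
  constructor
  · rintro ⟨h1, h2⟩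
    by_contra h3
    exact h2 ⟨h1, h3⟩
  · intro h
    have := hsub h
    rw [mem_ball_zero_iff] at this
    exact ⟨this, fun h2 => h2.2 h⟩

section M

variable {m : ℕ} {M : Type} [TopologicalSpace M] [ChartedSpace (E m) M] [T2Space M]

theorem closure_JT (e : Emb (E m) M) (k : ℕ) (x : ℕ → ℝ) :
    closure (e.J '' T m k x) = e.J '' closedBall (c m k x) (rho k) := by
  refine Subset.antisymm ?_ ?_
  · refine closure_minimal (image_mono ?_)
      ((isCompact_closedBall (c m k x) (rho k)).image e.cont).isClosed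
    exact (T_sub m k x).trans ball_subset_closedBall
  · rw [← closure_T]
    exact image_closure_subset_closure_image e.cont

theorem interior_J (e : Emb (E m) M) (k : ℕ) (x : ℕ → ℝ) :
    interior (e.J '' closedBall (c m k x) (rho k)) = e.J '' ball (c m k x) (rho k) := by
  refine Subset.antisymm ?_ ?_
  · intro z hz
    obtain ⟨u, hu, rfl⟩ := interior_subset hz
    refine ⟨u, ?_, rfl⟩
    rw [← interior_closedBall (c m k x) (rho_pos k).ne']
    refine mem_interior.2 ⟨e.J ⁻¹' (interior (e.J '' closedBall (c m k x) (rho k))), ?_,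
      isOpen_interior.preimage e.cont, hz⟩
    intro v hv
    obtain ⟨w, hw, hwv⟩ := interior_subset hv
    rwa [← e.inj hwv]
  · exact interior_maximal (image_mono ball_subset_closedBall) (e.isOpenMap _ isOpen_ball)

theorem N_JT (e : Emb (E m) M) (k : ℕ) (x : ℕ → ℝ) : N (e.J '' T m k x) = k := by
  unfold N
  rw [closure_JT, interior_J, ← image_sdiff e.inj, Set.ncard_image_of_injective _ e.inj,
    ball_diff_T, Set.ncard_image_of_injective _ (add_left_injective _),
    Set.ncard_image_of_injective _ (univBall_inj m _), Hol_ncard]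

theorem moved (e : Emb (E m) M) (x : ℕ → ℝ) :
    {z | tr e (g m x) z ≠ z} = ⋃ k, e.J '' T m k x := by
  ext z
  simp only [mem_iUnion, mem_ofPred_eq]
  constructor
  · intro h
    have hz : z ∈ e.J.target := by
      by_contra h1
      exact h (tr_not_mem h1)
    have hu : g m x (e.J.symm z) ≠ e.J.symm z := by
      intro h1
      apply h
      rw [tr_mem hz, h1, e.J.right_inv hz]
    have h2 : Psi m x (e.J.symm z) ≠ 0 := by
      intro h1
      apply hu
      unfold g
      rw [h1, zero_smul, add_zero]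
    obtain ⟨k, hk⟩ := Psi_ne.1 h2
    exact ⟨k, e.J.symm z, hk, e.J.right_inv hz⟩
  · rintro ⟨k, u, hu, rfl⟩ h1
    rw [tr_J] at h1
    have h2 := e.inj h1
    have h3 : Psi m x u ≠ 0 := Psi_ne.2 ⟨k, hu⟩
    apply h3
    have h5 : Psi m x u • e0 m = 0 := by
      have : u + Psi m x u • e0 m = u := h2
      simpa using this
    have h6 := congrArg (fun v : E m => v 0) h5
    simpa [e0_zero] using h6

theorem matched (e : Emb (E m) M) {x y : ℕ → ℝ} (h : M ≃ₜ M)
    (hc : ∀ z, h (tr e (g m x) z) = tr e (g m y) (h z)) (k : ℕ) :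
    h '' (e.J '' T m k x) = e.J '' T m k y := by
  have hU : h '' (⋃ k, e.J '' T m k x) = ⋃ k, e.J '' T m k y := by
    rw [← moved, ← moved]
    ext z
    constructor
    · rintro ⟨z', hz', rfl⟩
      intro h1
      rw [← hc] at h1
      exact hz' (h.injective h1)
    · intro hz
      refine ⟨h.symm z, ?_, h.apply_symm_apply z⟩
      intro h1
      apply hz
      have h2 := hc (h.symm z)
      rw [h1, h.apply_symm_apply] at h2
      exact h2.symm
  have hd : ∀ x : ℕ → ℝ, Pairwise (Function.onFun Disjoint fun k => e.J '' T m k x) := by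
    intro x k l hkl
    exact (disjoint_image_iff e.inj).2 (T_disj m x hkl)
  obtain ⟨l, hl⟩ := match_eq h (A := fun k => e.J '' T m k x) (B := fun k => e.J '' T m k y)
    (fun k => e.isOpenMap _ (T_open m k x)) (fun k => e.isOpenMap _ (T_open m k y))
    (fun k => (T_conn m k x).image _ e.cont.continuousOn)
    (fun k => (T_conn m k y).image _ e.cont.continuousOn) (hd x) (hd y) hU k
  have h1 := N_homeo h (e.J '' T m k x)
  have hl' : h '' (e.J '' T m k x) = e.J '' T m l y := hl
  rw [hl', N_JT, N_JT] at h1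
  rw [hl', h1]

theorem rho_tendsto : Tendsto rho atTop (𝓝 0) := by
  have h : Tendsto (fun k : ℕ => ((1:ℝ)/2)^k / 8) atTop (𝓝 (0 / 8)) :=
    (tendsto_pow_atTop_nhds_zero_of_lt_one (by norm_num) (by norm_num)).div_const 8
  rw [zero_div] at h
  exact h

theorem s_tendsto : Tendsto s atTop (𝓝 0) :=
  tendsto_pow_atTop_nhds_zero_of_lt_one (by norm_num) (by norm_num)

theorem limit_point (e : Emb (E m) M) {x y : ℕ → ℝ} (h : M ≃ₜ M)
    (hc : ∀ z, h (tr e (g m x) z) = tr e (g m y) (h z)) {κ : ℕ → ℕ} (hκ : Tendsto κ atTop atTop)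
    {X0 Y0 : E m} (h1 : Tendsto (fun n => c m (κ n) x) atTop (𝓝 X0))
    (h2 : Tendsto (fun n => c m (κ n) y) atTop (𝓝 Y0)) : h (e.J X0) = e.J Y0 := by
  have hp : ∀ k, ∃ p q : E m, ‖p‖ < rho k ∧ ‖q‖ < rho k ∧
      h (e.J (c m k x + p)) = e.J (c m k y + q) := by
    intro k
    obtain ⟨u, hu⟩ := (T_conn m k x).nonempty
    have h3 : h (e.J u) ∈ e.J '' T m k y := by
      rw [← matched e h hc k]
      exact ⟨e.J u, ⟨u, hu, rfl⟩, rfl⟩
    obtain ⟨v, hv, hvu⟩ := h3
    have h4 := T_sub m k x hu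
    have h5 := T_sub m k y hv
    rw [mem_ball_iff_norm] at h4 h5
    refine ⟨u - c m k x, v - c m k y, h4, h5, ?_⟩
    rw [add_sub_cancel, add_sub_cancel, hvu]
  choose p q hp hq hpq using hp
  have tz : ∀ p : ℕ → E m, (∀ k, ‖p k‖ < rho k) → Tendsto (fun n => p (κ n)) atTop (𝓝 0) := by
    intro p hp
    exact squeeze_zero_norm (fun n => (hp (κ n)).le) (rho_tendsto.comp hκ)
  have l1 : Tendsto (fun n => h (e.J (c m (κ n) x + p (κ n)))) atTop (𝓝 (h (e.J X0))) := by
    have := h1.add (tz p hp)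
    rw [add_zero] at this
    exact ((h.continuous.comp e.cont).tendsto X0).comp this
  have l2 : Tendsto (fun n => e.J (c m (κ n) y + q (κ n))) atTop (𝓝 (e.J Y0)) := by
    have := h2.add (tz q hq)
    rw [add_zero] at this
    exact (e.cont.tendsto Y0).comp this
  refine tendsto_nhds_unique l1 (l2.congr fun n => (hpq (κ n)).symm)

/-- generic pairs are not conjugate -/
theorem not_conj (e : Emb (E m) M) {x y : ℕ → ℝ} (hxy : ∀ n, ∃ k, n ≤ k ∧ x k < 0 ∧ 1 < y k) :
    ¬ TopConj (tr e (g m x)) (tr e (g m y)) := by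
  rintro ⟨h, hc⟩
  have h1 : h (e.J 0) = e.J 0 := by
    have hκ : Tendsto (fun n : ℕ => 2 * n + 1) atTop atTop :=
      tendsto_atTop_mono (fun n => by simp only [id]; omega) tendsto_id
    have ho : ∀ x : ℕ → ℝ, Tendsto (fun n => c m (2 * n + 1) x) atTop (𝓝 0) := by
      intro x
      have e2 : (fun n => c m (2 * n + 1) x) = fun n => s (2 * n + 1) • e1 m := by
        funext n
        have h1 : ¬ (2 * n + 1) % 2 = 0 := by omega
        unfold c a
        rw [if_neg h1, zero_smul, zero_add]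
      rw [e2]
      have := (s_tendsto.comp hκ).smul_const (e1 m)
      rwa [zero_smul] at this
    exact limit_point e h hc hκ (ho x) (ho y)
  have h2 : h (e.J 0) = e.J (e0 m) := by
    choose k hk hkx hky using hxy
    have hκ : Tendsto (fun n : ℕ => 2 * k n) atTop atTop :=
      tendsto_atTop_mono (fun n => by simp only [id]; have := hk n; omega) tendsto_id
    have e1 : ∀ (x : ℕ → ℝ) n, a (2 * k n) x = cl (x (k n)) := by
      intro x n
      have h1 : (2 * k n) % 2 = 0 := by omega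
      have h2 : (2 * k n) / 2 = k n := by omega
      unfold a
      rw [if_pos h1, h2]
    have t0 : Tendsto (fun n => s (2 * k n) • TC.e1 m) atTop (𝓝 0) := by
      have := (s_tendsto.comp hκ).smul_const (TC.e1 m)
      rwa [zero_smul] at this
    refine limit_point e h hc hκ ?_ ?_
    · refine t0.congr fun n => ?_
      unfold c
      rw [e1, cl_eq_zero (hkx n).le, zero_smul, zero_add]
    · have := (tendsto_const_nhds (x := e0 m) (f := atTop (α := ℕ))).add t0
      rw [add_zero] at this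
      refine this.congr fun n => ?_
      unfold c
      rw [e1, cl_eq_one (hky n).le, one_smul]
  have h3 : (0 : E m) = e0 m := e.inj (h1.symm.trans h2)
  have h4 := norm_e0 m
  rw [← h3, norm_zero] at h4
  exact zero_ne_one h4

end M

end Pool.Agent.K3h39.TC
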