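import Pool.Agent.K3h39.TC.Basic
import Pool.Agent.H410R3.DG.Jet

/-!
# Topological conjugacy: the bump functions
-/

set_option autoImplicit false

open Set Filter Topology Metric
open scoped ContDiff

namespace Pool.Agent.K3h39.TC

open Pool.Agent.H410R3.DG

theorem exists_psi (m k : ℕ) : ∃ f : E m → ℝ, ContDiff ℝ ∞ f ∧ Function.support f = W m k ∧
    (∀ u, 0 ≤ f u) ∧ (∀ j, ∃ C, ∀ u, ‖iteratedFDeriv ℝ j f u‖ ≤ C) ∧
    ∀ j ≤ k + 1, ∀ u, ‖iteratedFDeriv ℝ j f u‖ ≤ (1/8) * (1/2)^k := by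
  obtain ⟨f, hf1, hf2, hf3⟩ := (W_open m k).exists_contDiff_support_eq (n := ⊤)
  have hcs : HasCompactSupport f := by
    refine HasCompactSupport.intro (isCompact_closedBall (0 : E m) (rho k)) fun u hu => ?_
    by_contra h
    have : u ∈ W m k := by rw [← hf1]; exact h
    exact hu (ball_subset_closedBall (W_subset m k this))
  have hb : ∀ j : ℕ, ∃ C, ∀ u, ‖iteratedFDeriv ℝ j f u‖ ≤ C := by
    intro j
    have h1 : Continuous (iteratedFDeriv ℝ j f) := by
      refine hf2.continuous_iteratedFDeriv ?_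
      exact_mod_cast le_top
    exact (hcs.iteratedFDeriv (𝕜 := ℝ) j).exists_bound_of_continuous h1
  choose C hC using hb
  -- common bound
  set B : ℝ := 1 + ∑ j ∈ Finset.range (k + 2), |C j| with hB
  have hBpos : 0 < B := by
    have : 0 ≤ ∑ j ∈ Finset.range (k + 2), |C j| := Finset.sum_nonneg fun j _ => abs_nonneg _
    linarith
  have hBC : ∀ j ≤ k + 1, ∀ u, ‖iteratedFDeriv ℝ j f u‖ ≤ B := by
    intro j hj u
    have h1 : |C j| ≤ ∑ j ∈ Finset.range (k + 2), |C j| :=
      Finset.single_le_sum (f := fun j => |C j|) (fun j _ => abs_nonneg _)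
        (Finset.mem_range.2 (by omega))
    have h2 := hC j u
    have h3 := le_abs_self (C j)
    linarith
  set ε : ℝ := (1/8) * (1/2)^k / B with hε
  have hεpos : 0 < ε := by positivity
  have hsm : ∀ j u, iteratedFDeriv ℝ j (ε • f) u = ε • iteratedFDeriv ℝ j f u := by
    intro j u
    have : ContDiff ℝ j f := hf2.of_le (by exact_mod_cast le_top)
    exact iteratedFDeriv_const_smul_apply this.contDiffAt
  refine ⟨ε • f, contDiff_const.smul hf2, ?_, ?_, ?_, ?_⟩
  · rw [Function.support_const_smul_of_ne_zero _ _ hεpos.ne', hf1]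
  · intro u
    have := hf3 (mem_range_self u)
    exact mul_nonneg hεpos.le this.1
  · intro j
    refine ⟨ε * C j, fun u => ?_⟩
    rw [hsm, norm_smul, Real.norm_eq_abs, abs_of_pos hεpos]
    exact mul_le_mul_of_nonneg_left (hC j u) hεpos.le
  · intro j hj u
    rw [hsm, norm_smul, Real.norm_eq_abs, abs_of_pos hεpos]
    calc ε * ‖iteratedFDeriv ℝ j f u‖ ≤ ε * B := mul_le_mul_of_nonneg_left (hBC j hj u) hεpos.le
      _ = (1/8) * (1/2)^k := by rw [hε]; field_simp

/-- the bump function of the marker `k` -/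
noncomputable def psi (m k : ℕ) : E m → ℝ := (exists_psi m k).choose

theorem psi_smooth (m k : ℕ) : ContDiff ℝ ∞ (psi m k) := (exists_psi m k).choose_spec.1
theorem psi_support (m k : ℕ) : Function.support (psi m k) = W m k :=
  (exists_psi m k).choose_spec.2.1
theorem psi_nonneg (m k : ℕ) (u : E m) : 0 ≤ psi m k u := (exists_psi m k).choose_spec.2.2.1 u
theorem psi_bdd (m k j : ℕ) : ∃ C, ∀ u, ‖iteratedFDeriv ℝ j (psi m k) u‖ ≤ C :=
  (exists_psi m k).choose_spec.2.2.2.1 j
theorem psi_small (m k j : ℕ) (hj : j ≤ k + 1) (u : E m) :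
    ‖iteratedFDeriv ℝ j (psi m k) u‖ ≤ (1/8) * (1/2)^k :=
  (exists_psi m k).choose_spec.2.2.2.2 j hj u

/-- bound of the derivative of order `j` -/
noncomputable def bd (m j k : ℕ) : ℝ :=
  if j ≤ k + 1 then (1/8) * (1/2)^k else (psi_bdd m k j).choose

theorem le_bd (m j k : ℕ) (u : E m) : ‖iteratedFDeriv ℝ j (psi m k) u‖ ≤ bd m j k := by
  unfold bd
  split_ifs with h
  · exact psi_small m k j h u
  · exact (psi_bdd m k j).choose_spec u

theorem summable_geo : Summable (fun k : ℕ => (1/8 : ℝ) * (1/2)^k) :=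
  (summable_geometric_of_lt_one (by norm_num) (by norm_num)).mul_left _

theorem tsum_geo : ∑' k : ℕ, (1/8 : ℝ) * (1/2)^k = 1/4 := by
  rw [tsum_mul_left, tsum_geometric_two]; norm_num

theorem summable_bd (m j : ℕ) : Summable (bd m j) := by
  rw [← summable_nat_add_iff j]
  have h : (fun k => bd m j (k + j)) = fun k : ℕ => (1/8 : ℝ) * (1/2)^(k + j) := by
    funext k
    unfold bd
    rw [if_pos (by omega)]
  rw [h]
  exact (summable_nat_add_iff j).2 summable_geo

/-- term of the sum -/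
noncomputable def term (m k : ℕ) (x : ℕ → ℝ) (u : E m) : ℝ := psi m k (u - c m k x)

/-- the displacement -/
noncomputable def Psi (m : ℕ) (x : ℕ → ℝ) (u : E m) : ℝ := ∑' k, term m k x u

theorem term_smooth (m k : ℕ) (x : ℕ → ℝ) : ContDiff ℝ ∞ (term m k x) :=
  (psi_smooth m k).comp (contDiff_id.sub contDiff_const)

theorem iter_term (m k j : ℕ) (x : ℕ → ℝ) (u : E m) :
    iteratedFDeriv ℝ j (term m k x) u = iteratedFDeriv ℝ j (psi m k) (u - c m k x) := by
  unfold term
  rw [iteratedFDeriv_comp_sub (f := psi m k) j (c m k x) u]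

theorem Psi_smooth (m : ℕ) (x : ℕ → ℝ) : ContDiff ℝ ∞ (Psi m x) := by
  refine contDiff_tsum (N := ⊤) (v := bd m) (fun k => term_smooth m k x)
    (fun j _ => summable_bd m j) ?_
  intro j k u _
  rw [iter_term]
  exact le_bd m j k _

theorem iter_Psi (m j : ℕ) (x : ℕ → ℝ) (u : E m) :
    iteratedFDeriv ℝ j (Psi m x) u = ∑' k, iteratedFDeriv ℝ j (psi m k) (u - c m k x) := by
  have h := iteratedFDeriv_tsum_apply (𝕜 := ℝ) (N := ⊤) (f := fun k => term m k x) (v := bd m)
    (fun k => term_smooth m k x) (fun j _ => summable_bd m j)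
    (fun j k u _ => by rw [iter_term]; exact le_bd m j k _) (k := j) le_top u
  have e : (fun y => ∑' n, term m n x y) = Psi m x := rfl
  rw [e] at h
  rw [h]
  exact tsum_congr fun k => iter_term m k j x u

theorem jet_Psi (m : ℕ) (r : ℕ∞) (p : (ℕ → ℝ) × E m) : JetAt r (Psi m) p := by
  refine ⟨Eventually.of_forall fun q => ?_, fun j _ => ?_⟩
  · exact ((Psi_smooth m q.1).of_le (by exact_mod_cast le_top)).contDiffAt
  · have h1 : (fun q : (ℕ → ℝ) × E m => iteratedFDeriv ℝ j (Psi m q.1) q.2) =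
        fun q => ∑' k, iteratedFDeriv ℝ j (psi m k) (q.2 - c m k q.1) := by
      funext q; exact iter_Psi m j q.1 q.2
    rw [h1]
    refine Continuous.continuousAt ?_
    refine continuous_tsum (u := bd m j) (fun k => ?_) (summable_bd m j) (fun k q => le_bd m j k _)
    have h2 : Continuous (iteratedFDeriv ℝ j (psi m k)) :=
      (psi_smooth m k).continuous_iteratedFDeriv (by exact_mod_cast le_top)
    exact h2.comp (continuous_snd.sub ((c_continuous m k).comp continuous_fst))

/-! ### values -/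

theorem term_ne {m k : ℕ} {x : ℕ → ℝ} {u : E m} : term m k x u ≠ 0 ↔ u - c m k x ∈ W m k := by
  rw [← psi_support m k, Function.mem_support]
  rfl

theorem term_zero {m k : ℕ} {x : ℕ → ℝ} {u : E m} (h : ¬ ‖u - c m k x‖ < rho k) :
    term m k x u = 0 := by
  by_contra h1
  have h2 := W_subset m k (term_ne.1 h1)
  rw [mem_ball_zero_iff] at h2
  exact h h2

theorem Psi_in {m k : ℕ} {x : ℕ → ℝ} {u : E m} (h : ‖u - c m k x‖ < rho k) :
    Psi m x u = term m k x u := by
  unfold Psi
  refine tsum_eq_single k fun l hl => term_zero fun h2 => hl ?_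
  exact ball_disj (x := x) (y := x) rfl h2 h

theorem Psi_out {m : ℕ} {x : ℕ → ℝ} {u : E m} (h : ∀ k, ¬ ‖u - c m k x‖ < rho k) :
    Psi m x u = 0 := by
  unfold Psi
  rw [tsum_congr fun k => term_zero (h k), tsum_zero]

theorem Psi_ne {m : ℕ} {x : ℕ → ℝ} {u : E m} :
    Psi m x u ≠ 0 ↔ ∃ k, u - c m k x ∈ W m k := by
  constructor
  · intro h
    by_cases h1 : ∃ k, ‖u - c m k x‖ < rho k
    · obtain ⟨k, hk⟩ := h1
      rw [Psi_in hk] at h
      exact ⟨k, term_ne.1 h⟩
    · push Not at h1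
      exact absurd (Psi_out fun k => not_lt.2 (h1 k)) h
  · rintro ⟨k, hk⟩
    have h2 := W_subset m k hk
    rw [mem_ball_zero_iff] at h2
    rw [Psi_in h2]
    exact term_ne.2 hk

theorem Psi_exists {m : ℕ} {x : ℕ → ℝ} {u : E m} (h : Psi m x u ≠ 0) :
    ∃ k, ‖u - c m k x‖ < rho k := by
  by_contra h1
  push Not at h1
  exact h (Psi_out fun k => not_lt.2 (h1 k))

theorem Psi_far {m : ℕ} {x : ℕ → ℝ} {u : E m} (h : 6 < ‖u‖) : Psi m x u = 0 := by
  by_contra h1
  obtain ⟨k, hk⟩ := Psi_exists h1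
  have h2 := norm_c_le m k x
  have h3 := rho_le k
  have h4 : ‖u‖ ≤ ‖u - c m k x‖ + ‖c m k x‖ := by
    simpa using norm_add_le (u - c m k x) (c m k x)
  linarith

theorem term_lip (m k : ℕ) (x : ℕ → ℝ) (u v : E m) :
    |term m k x u - term m k x v| ≤ (1/8) * (1/2)^k * ‖u - v‖ := by
  have h := Convex.norm_image_sub_le_of_norm_fderiv_le (𝕜 := ℝ) (f := term m k x)
    (C := (1/8) * (1/2)^k) (s := univ) (x := v) (y := u)
    (fun w _ => ((term_smooth m k x).differentiable (by simp)).differentiableAt)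
    (fun w _ => ?_) convex_univ (mem_univ _) (mem_univ _)
  · exact h
  · rw [← norm_iteratedFDeriv_one (𝕜 := ℝ), iter_term]
    exact psi_small m k 1 (by omega) _

theorem Psi_lip (m : ℕ) (x : ℕ → ℝ) (u v : E m) : |Psi m x u - Psi m x v| ≤ (1/4) * ‖u - v‖ := by
  have hs : ∀ w : E m, Summable (fun k => term m k x w) := fun w => by
    refine Summable.of_norm_bounded (g := bd m 0) (summable_bd m 0) fun k => ?_
    have := le_bd m 0 k (w - c m k x)
    rw [norm_iteratedFDeriv_zero] at this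
    exact this
  have h1 : Psi m x u - Psi m x v = ∑' k, (term m k x u - term m k x v) :=
    ((hs u).tsum_sub (hs v)).symm
  rw [h1]
  have h2 : HasSum (fun k : ℕ => (1/8 : ℝ) * (1/2)^k * ‖u - v‖) ((1/4) * ‖u - v‖) := by
    have := summable_geo.hasSum.mul_right ‖u - v‖
    rwa [tsum_geo] at this
  have h3 := tsum_of_norm_bounded (f := fun k => term m k x u - term m k x v) h2
    (fun k => by rw [Real.norm_eq_abs]; exact term_lip m k x u v)
  rwa [Real.norm_eq_abs] at h3

end Pool.Agent.K3h39.TC
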